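import Pool.Agent.H79.AE.Defs

set_option autoImplicit false

namespace AE

open Nat.Partrec (Code)
open Encodable

variable {α β γ : Type} [Primcodable α] [Primcodable β] [Primcodable γ]

/-- uniformly arithmetical relations between reals and elements of a coded type -/
def Ar (R : (ℕ → Bool) → α → Prop) : Prop := ∃ φ : Fm, ∀ x a, R x a ↔ φ.Sat x (encode a)

lemma Ar.neg {R : (ℕ → Bool) → α → Prop} (h : Ar R) : Ar (fun x a => ¬ R x a) := by
  obtain ⟨φ, hφ⟩ := h
  exact ⟨.neg φ, fun x a => not_congr (hφ x a)⟩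

lemma Ar.and {R S : (ℕ → Bool) → α → Prop} (h : Ar R) (h' : Ar S) :
    Ar (fun x a => R x a ∧ S x a) := by
  obtain ⟨φ, hφ⟩ := h
  obtain ⟨ψ, hψ⟩ := h'
  exact ⟨.conj φ ψ, fun x a => and_congr (hφ x a) (hψ x a)⟩

lemma Ar.congr {R S : (ℕ → Bool) → α → Prop} (h : Ar R) (h' : ∀ x a, S x a ↔ R x a) : Ar S := by
  obtain ⟨φ, hφ⟩ := h
  exact ⟨φ, fun x a => (h' x a).trans (hφ x a)⟩

lemma Ar.or {R S : (ℕ → Bool) → α → Prop} (h : Ar R) (h' : Ar S) :
    Ar (fun x a => R x a ∨ S x a) :=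
  ((h.neg.and h'.neg).neg).congr fun x a => by tauto

lemma Ar.imp {R S : (ℕ → Bool) → α → Prop} (h : Ar R) (h' : Ar S) :
    Ar (fun x a => R x a → S x a) :=
  ((h.and h'.neg).neg).congr fun x a => by tauto

lemma Ar.iff {R S : (ℕ → Bool) → α → Prop} (h : Ar R) (h' : Ar S) :
    Ar (fun x a => (R x a ↔ S x a)) :=
  ((h.imp h').and (h'.imp h)).congr fun x a => by tauto

lemma Ar.comp {R : (ℕ → Bool) → β → Prop} (h : Ar R) {g : α → β} (hg : Computable g) :
    Ar (fun x a => R x (g a)) := by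
  obtain ⟨φ, hφ⟩ := h
  obtain ⟨c, hc⟩ := Code.exists_code.1 hg
  refine ⟨.sub c φ, fun x a => ?_⟩
  have h1 : c.eval (encode a) = Part.some (encode (g a)) := by
    rw [hc]
    simp
  simp only [Fm.Sat, h1, Part.mem_some_iff, exists_eq_left]
  exact hφ x (g a)

lemma Ar.orc : Ar (fun x (n : ℕ) => x n = true) := ⟨.orc, fun _ _ => Iff.rfl⟩

lemma Ar.of_bool {g : α → Bool} (hg : Computable g) : Ar (fun _ a => g a = true) := by
  have h1 : Ar (fun (_ : ℕ → Bool) (n : ℕ) => n = 0) := ⟨.zero, fun _ _ => Iff.rfl⟩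
  have h2 : Computable (fun a => if g a then 0 else 1 : α → ℕ) := by
    have := Computable.cond hg (Computable.const (0 : ℕ)) (Computable.const (1 : ℕ))
    refine this.of_eq fun a => ?_
    cases g a <;> rfl
  refine (h1.comp h2).congr fun x a => ?_
  cases g a <;> simp

lemma Ar.of_pred {P : α → Prop} [DecidablePred P] (hP : Computable fun a => decide (P a)) :
    Ar (fun _ a => P a) :=
  (Ar.of_bool hP).congr fun x a => by simp

lemma Ar.of_prim {P : α → Prop} (hP : PrimrecPred P) : Ar (fun _ a => P a) := by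
  obtain ⟨_, h⟩ := hP
  exact Ar.of_pred h.to_comp

lemma Ar.const (p : Prop) : Ar (fun _ (_ : α) => p) := by
  classical
  refine (Ar.of_bool (α := α) (Computable.const (decide p))).congr fun x a => ?_
  simp

lemma Ar.ex {R : (ℕ → Bool) → α × β → Prop} (h : Ar R) :
    Ar (fun x a => ∃ b, R x (a, b)) := by
  obtain ⟨φ, hφ⟩ := h
  have hpart : Nat.Partrec (fun k => ((decode (α := β) k.unpair.2 : Option β) : Part β).map
      fun b => Nat.pair k.unpair.1 (encode b)) := by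
    have h1 : Partrec (fun k : ℕ => ((decode (α := β) k.unpair.2 : Option β) : Part β)) :=
      Computable.ofOption (Computable.decode.comp
        (Computable.snd.comp Computable.unpair))
    have h2 : Computable₂ (fun (k : ℕ) (b : β) => Nat.pair k.unpair.1 (encode b)) := by
      have : Primrec₂ (fun (k : ℕ) (b : β) => Nat.pair k.unpair.1 (encode b)) :=
        Primrec₂.natPair.comp (Primrec.fst.comp (Primrec.unpair.comp Primrec.fst))
          (Primrec.encode.comp Primrec.snd)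
      exact this.to_comp
    exact Partrec.nat_iff.1 (h1.map h2)
  obtain ⟨c, hc⟩ := Code.exists_code.1 hpart
  refine ⟨.ex (.sub c φ), fun x a => ?_⟩
  simp only [Fm.Sat, hc]
  constructor
  · rintro ⟨b, hb⟩
    refine ⟨encode b, Nat.pair (encode a) (encode b), ?_, ?_⟩
    · simp
    · exact (hφ x (a, b)).1 hb
  · rintro ⟨m, k, hk, hs⟩
    simp only [Nat.unpair_pair, Part.mem_map_iff, Part.mem_ofOption, Option.mem_def] at hk
    obtain ⟨b, -, rfl⟩ := hk
    exact ⟨b, (hφ x (a, b)).2 hs⟩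

lemma Ar.all {R : (ℕ → Bool) → α × β → Prop} (h : Ar R) :
    Ar (fun x a => ∀ b, R x (a, b)) :=
  (h.neg.ex.neg).congr fun x a => by
    push Not
    rfl

/-- substitution of an arithmetical operator for the set variable -/
lemma Ar.subst {Γ : (ℕ → Bool) → ℕ → Bool} (hΓ : Ar (fun x (n : ℕ) => Γ x n = true))
    {R : (ℕ → Bool) → α → Prop} (h : Ar R) : Ar (fun x a => R (Γ x) a) := by
  obtain ⟨φ, hφ⟩ := h
  have key : ∀ φ : Fm, Ar (fun x (n : ℕ) => φ.Sat (Γ x) n) := by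
    intro φ
    induction φ with
    | orc => exact hΓ
    | zero => exact ⟨.zero, fun _ _ => Iff.rfl⟩
    | neg φ ih => exact ih.neg
    | conj φ ψ ih ih' => exact ih.and ih'
    | ex φ ih =>
      obtain ⟨ψ, hψ⟩ := ih
      refine ⟨.ex ψ, fun x n => ?_⟩
      simp only [Fm.Sat]
      exact exists_congr fun m => hψ x _
    | sub c φ ih =>
      obtain ⟨ψ, hψ⟩ := ih
      refine ⟨.sub c ψ, fun x n => ?_⟩
      simp only [Fm.Sat]
      exact exists_congr fun m => and_congr Iff.rfl (hψ x m)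
  obtain ⟨ψ, hψ⟩ := key φ
  exact ⟨ψ, fun x a => (hφ (Γ x) a).trans (hψ x _)⟩

/-! ### Arithmetic reducibility -/

lemma leA_iff {y x : ℕ → Bool} :
    LeA y x ↔ ∃ R : (ℕ → Bool) → ℕ → Prop, Ar R ∧ ∀ n, y n = true ↔ R x n := by
  constructor
  · rintro ⟨φ, hφ⟩
    exact ⟨fun x n => φ.Sat x n, ⟨φ, fun _ _ => Iff.rfl⟩, hφ⟩
  · rintro ⟨R, ⟨φ, hφ⟩, h⟩
    exact ⟨φ, fun n => (h n).trans (hφ x n)⟩

lemma LeA.refl (x : ℕ → Bool) : LeA x x := ⟨.orc, fun _ => Iff.rfl⟩

lemma LeA.trans {x y z : ℕ → Bool} (h : LeA x y) (h' : LeA y z) : LeA x z := by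
  classical
  obtain ⟨φ, hφ⟩ := h
  obtain ⟨ψ, hψ⟩ := h'
  have h1 : Ar (fun x (n : ℕ) => (fun m => decide (ψ.Sat x m)) n = true) :=
    ⟨ψ, fun x n => by simp⟩
  have h2 : Ar (fun x (n : ℕ) => φ.Sat x n) := ⟨φ, fun _ _ => Iff.rfl⟩
  refine leA_iff.2 ⟨_, Ar.subst (Γ := fun x m => decide (ψ.Sat x m)) h1 h2, fun n => ?_⟩
  rw [hφ n]
  have h3 : (fun m => decide (ψ.Sat z m)) = y := by
    funext m
    have := hψ m
    by_cases hm : ψ.Sat z m
    · simp [hm, this.2 hm]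
    · have : y m = false := by
        rw [← Bool.not_eq_true]
        exact fun h => hm (this.1 h)
      simp [hm, this]
  rw [h3]

lemma EqA.refl (x : ℕ → Bool) : EqA x x := ⟨LeA.refl x, LeA.refl x⟩

lemma EqA.symm {x y : ℕ → Bool} (h : EqA x y) : EqA y x := ⟨h.2, h.1⟩

lemma EqA.trans {x y z : ℕ → Bool} (h : EqA x y) (h' : EqA y z) : EqA x z :=
  ⟨h.1.trans h'.1, h'.2.trans h.2⟩

/-- the join `x ⊕ y` -/
def jn (x y : ℕ → Bool) (n : ℕ) : Bool := if n % 2 = 0 then x (n / 2) else y (n / 2)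

def lft (z : ℕ → Bool) (n : ℕ) : Bool := z (2 * n)
def rgt (z : ℕ → Bool) (n : ℕ) : Bool := z (2 * n + 1)

lemma lft_jn (x y : ℕ → Bool) : lft (jn x y) = x := by
  funext n
  simp [lft, jn]

lemma rgt_jn (x y : ℕ → Bool) : rgt (jn x y) = y := by
  funext n
  have h1 : (2 * n + 1) % 2 ≠ 0 := by omega
  have h2 : (2 * n + 1) / 2 = n := by omega
  simp [rgt, jn, h1, h2]

lemma ar_lft : Ar (fun x (n : ℕ) => lft x n = true) :=
  Ar.orc.comp (Primrec.nat_mul.comp (Primrec.const 2) Primrec.id).to_comp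

lemma ar_rgt : Ar (fun x (n : ℕ) => rgt x n = true) :=
  Ar.orc.comp (Primrec.succ.comp (Primrec.nat_mul.comp (Primrec.const 2) Primrec.id)).to_comp

lemma Ar.left {R : (ℕ → Bool) → α → Prop} (h : Ar R) : Ar (fun z a => R (lft z) a) :=
  Ar.subst ar_lft h

lemma Ar.right {R : (ℕ → Bool) → α → Prop} (h : Ar R) : Ar (fun z a => R (rgt z) a) :=
  Ar.subst ar_rgt h

lemma leA_lft (z : ℕ → Bool) : LeA (lft z) z := leA_iff.2 ⟨_, ar_lft, fun _ => Iff.rfl⟩

lemma leA_rgt (z : ℕ → Bool) : LeA (rgt z) z := leA_iff.2 ⟨_, ar_rgt, fun _ => Iff.rfl⟩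

lemma leA_jn_left (x y : ℕ → Bool) : LeA x (jn x y) := by
  have := leA_lft (jn x y)
  rwa [lft_jn] at this

lemma leA_jn_right (x y : ℕ → Bool) : LeA y (jn x y) := by
  have := leA_rgt (jn x y)
  rwa [rgt_jn] at this

lemma jn_leA {x y z : ℕ → Bool} (h : LeA x z) (h' : LeA y z) : LeA (jn x y) z := by
  obtain ⟨R, hR, h1⟩ := leA_iff.1 h
  obtain ⟨S, hS, h2⟩ := leA_iff.1 h'
  have he : PrimrecPred (fun n : ℕ => n % 2 = 0) :=
    Primrec.eq.comp (Primrec.nat_mod.comp Primrec.id (Primrec.const 2)) (Primrec.const 0)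
  have hh : Computable (fun n : ℕ => n / 2) :=
    (Primrec.nat_div.comp Primrec.id (Primrec.const 2)).to_comp
  refine leA_iff.2 ⟨_, ((Ar.of_prim he).and (hR.comp hh)).or
    ((Ar.of_prim he).neg.and (hS.comp hh)), fun n => ?_⟩
  by_cases hn : n % 2 = 0
  · simp [jn, hn, h1]
  · have hn' : n % 2 = 1 := by omega
    simp [jn, hn', h2]

end AE
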