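import Pool.Agent.H79.AE.Core

/-!
# Arithmetic equivalence is a countable Borel equivalence relation
-/

set_option autoImplicit false

namespace AE

open Encodable Set

deriving instance Countable for Fm

lemma measurable_coord (n : ℕ) : Measurable fun x : ℕ → Bool => x n := measurable_pi_apply n

lemma polish_cantor : PolishSpace (ℕ → Bool) := by
  have h1 : TopologicalSpace.IsCompletelyMetrizableSpace (ℕ → Bool) := inferInstance
  have h2 : SecondCountableTopology (ℕ → Bool) := inferInstance
  infer_instance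

lemma measurableSet_sat (φ : Fm) (n : ℕ) : MeasurableSet {x : ℕ → Bool | φ.Sat x n} := by
  induction φ generalizing n with
  | orc => exact (measurable_coord n) (measurableSet_singleton true)
  | zero => exact MeasurableSet.const _
  | sub c φ ih =>
    have h1 : {x : ℕ → Bool | (Fm.sub c φ).Sat x n} =
        ⋃ m : ℕ, {_x : ℕ → Bool | m ∈ c.eval n} ∩ {x | φ.Sat x m} := by
      ext x
      simp only [Fm.Sat, mem_ofPred_eq, mem_iUnion, mem_inter_iff]
    rw [h1]
    exact MeasurableSet.iUnion fun m => (MeasurableSet.const _).inter (ih m)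
  | neg φ ih => exact (ih n).compl
  | conj φ ψ ih ih' => exact (ih n).inter (ih' n)
  | ex φ ih =>
    have h1 : {x : ℕ → Bool | (Fm.ex φ).Sat x n} = ⋃ m : ℕ, {x | φ.Sat x (Nat.pair n m)} := by
      ext x
      simp only [Fm.Sat, mem_ofPred_eq, mem_iUnion]
    rw [h1]
    exact MeasurableSet.iUnion fun m => ih _

lemma measurableSet_leA : MeasurableSet {p : (ℕ → Bool) × (ℕ → Bool) | LeA p.1 p.2} := by
  have h1 : {p : (ℕ → Bool) × (ℕ → Bool) | LeA p.1 p.2} =
      ⋃ φ : Fm, ⋂ n : ℕ, {p : (ℕ → Bool) × (ℕ → Bool) | (p.1 n = true ↔ φ.Sat p.2 n)} := by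
    ext p
    simp only [LeA, mem_ofPred_eq, mem_iUnion, mem_iInter]
  rw [h1]
  refine MeasurableSet.iUnion fun φ => MeasurableSet.iInter fun n => ?_
  have a1 : MeasurableSet {p : (ℕ → Bool) × (ℕ → Bool) | p.1 n = true} :=
    ((measurable_coord n).comp measurable_fst) (measurableSet_singleton true)
  have a2 : MeasurableSet {p : (ℕ → Bool) × (ℕ → Bool) | φ.Sat p.2 n} :=
    measurable_snd (measurableSet_sat φ n)
  have h2 : {p : (ℕ → Bool) × (ℕ → Bool) | (p.1 n = true ↔ φ.Sat p.2 n)} =
      ({p | p.1 n = true} ∩ {p | φ.Sat p.2 n}) ∪ ({p | p.1 n = true}ᶜ ∩ {p | φ.Sat p.2 n}ᶜ) := by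
    ext p
    simp only [mem_ofPred_eq, mem_union, mem_inter_iff, mem_compl_iff]
    tauto
  rw [h2]
  exact (a1.inter a2).union (a1.compl.inter a2.compl)

lemma countable_leA (x : ℕ → Bool) : {y | LeA y x}.Countable := by
  classical
  have h1 : {y | LeA y x} ⊆ Set.range (fun φ : Fm => fun n => decide (φ.Sat x n)) := by
    rintro y ⟨φ, hφ⟩
    refine ⟨φ, ?_⟩
    funext n
    rw [Bool.eq_iff_iff, decide_eq_true_iff]
    exact (hφ n).symm
  exact (Set.countable_range _).mono h1

theorem cber_eqA : CBER EqA where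
  equiv := ⟨EqA.refl, EqA.symm, EqA.trans⟩
  borel := by
    have h2 : MeasurableSet {p : (ℕ → Bool) × (ℕ → Bool) | LeA p.2 p.1} :=
      measurable_swap measurableSet_leA
    exact measurableSet_leA.inter h2
  ctbl := fun x => (countable_leA x).mono fun y hy => hy.2

lemma measurableSet_cone (c : ℕ → Bool) : MeasurableSet {y | LeA c y} := by
  have h1 : Measurable (fun y : ℕ → Bool => (c, y)) := measurable_const.prodMk measurable_id
  exact h1 measurableSet_leA

lemma jn_injective_right (c : ℕ → Bool) : Function.Injective (fun y => jn c y) := by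
  intro y y' h
  have h1 := congrArg rgt h
  simpa [rgt_jn] using h1

lemma not_countable_cone (p : ℕ → Bool) : ¬ {y | LeA p y}.Countable := by
  intro h
  have h1 : (Set.range fun y => jn p y).Countable :=
    h.mono (by rintro _ ⟨y, rfl⟩; exact leA_jn_left p y)
  have h2 : Countable (ℕ → Bool) := by
    rw [← Set.image_univ] at h1
    exact Set.countable_univ_iff.1
      (Set.countable_of_injective_of_countable_image (jn_injective_right p).injOn h1)
  obtain ⟨e, he⟩ := exists_surjective_nat (ℕ → Bool)
  obtain ⟨n, hn⟩ := he fun n => ! e n n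
  have h3 := congrFun hn n
  simp at h3

/-- the two alternatives exclude each other -/
theorem not_both {X : Type} [MeasurableSpace X] {E : X → X → Prop} (hE : CBER E)
    (h1 : WeaklyUniversal E) (h2 : Ergodic E) : False := by
  have := polish_cantor
  obtain ⟨F, hF, hFE, hu⟩ := h1
  obtain ⟨f, hf, hred⟩ := hu (ℕ → Bool) EqA cber_eqA
  obtain ⟨p, a, ha⟩ := h2 f ⟨hf, fun x x' h => hFE _ _ ((hred x x').1 h)⟩
  apply not_countable_cone p
  have hc : {b | E a b}.Countable := hE.ctbl a
  have h3 : {y | LeA p y} ⊆ ⋃ b ∈ {b | E a b}, {y | f y = b} := by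
    intro y hy
    simp only [mem_iUnion]
    exact ⟨f y, hE.equiv.symm (ha y hy), rfl⟩
  refine (hc.biUnion fun b _ => ?_).mono h3
  by_cases hb : ∃ y, f y = b
  · obtain ⟨y, rfl⟩ := hb
    refine (cber_eqA.ctbl y).mono ?_
    intro y' hy'
    have h4 : f y' = f y := hy'
    show EqA y y'
    rw [hred, h4]
    exact hF.equiv.refl _
  · have h4 : {y | f y = b} = ∅ := by
      ext y
      simp only [mem_ofPred_eq, mem_empty_iff_false, iff_false]
      exact fun h => hb ⟨y, h⟩
    rw [h4]
    exact Set.countable_empty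

end AE
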