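import Pool.Agent.H79.AE.Tree

/-!
# The branch of the tree given by `y` is arithmetically equivalent to `y`, modulo `c`
-/

set_option autoImplicit false

namespace AE

open Encodable

lemma ar_yl : Ar (fun y (q : List Bool × ℕ) => q.1 = yl y q.2) := by
  have a1 : Ar (fun (_ : ℕ → Bool) (q : List Bool × ℕ) => q.1.length = q.2) :=
    Ar.of_prim (Primrec.eq.comp (Primrec.list_length.comp Primrec.fst) Primrec.snd)
  have a2 : Ar (fun (_ : ℕ → Bool) (q : (List Bool × ℕ) × ℕ) => q.2 < q.1.2) :=
    Ar.of_prim (Primrec.nat_lt.comp Primrec.snd (Primrec.snd.comp Primrec.fst))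
  have a3 : Ar (fun (_ : ℕ → Bool) (q : (List Bool × ℕ) × ℕ) =>
      q.1.1.getD (q.1.2 - 1 - q.2) false = true) :=
    Ar.of_prim (Primrec.eq.comp ((Primrec.list_getD false).comp
      (Primrec.fst.comp Primrec.fst) (Primrec.nat_sub.comp (Primrec.nat_sub.comp
        (Primrec.snd.comp Primrec.fst) (Primrec.const 1)) Primrec.snd)) (Primrec.const true))
  have a4 : Ar (fun (y : ℕ → Bool) (q : (List Bool × ℕ) × ℕ) => y q.2 = true) :=
    Ar.orc.comp Primrec.snd.to_comp
  exact (a1.and (a2.imp (a3.iff a4)).all).congr fun y q => yl_iff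

/-- `s` is an initial segment of `x` -/
def Ini (x : ℕ → Bool) (s : List Bool) : Prop := pre x s.length = s

lemma ini_iff {x : ℕ → Bool} {s : List Bool} :
    Ini x s ↔ ∀ i, i < s.length → (s.getD i false = true ↔ x i = true) := by
  unfold Ini
  constructor
  · intro h i hi
    have h2 := getD_pre x hi
    rw [h] at h2
    rw [h2]
  · intro h
    apply List.ext_getElem
    · simp
    · intro i h1 h2
      have h3 := h i h2
      rw [List.getD_eq_getElem _ _ h2] at h3
      rw [Bool.eq_iff_iff, h3]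
      simp [pre]

lemma ar_ini : Ar (fun x (s : List Bool) => Ini x s) := by
  have a2 : Ar (fun (_ : ℕ → Bool) (q : List Bool × ℕ) => q.2 < q.1.length) :=
    Ar.of_prim (Primrec.nat_lt.comp Primrec.snd (Primrec.list_length.comp Primrec.fst))
  have a3 : Ar (fun (_ : ℕ → Bool) (q : List Bool × ℕ) => q.1.getD q.2 false = true) :=
    Ar.of_prim (Primrec.eq.comp ((Primrec.list_getD false).comp Primrec.fst Primrec.snd)
      (Primrec.const true))
  have a4 : Ar (fun (x : ℕ → Bool) (q : List Bool × ℕ) => x q.2 = true) :=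
    Ar.orc.comp Primrec.snd.to_comp
  exact (a2.imp (a3.iff a4)).all.congr fun y q => ini_iff

section

variable {Sp : (ℕ → Bool) → Tri → Prop} {c : ℕ → Bool} (h : Splits Sp c) (n : ℕ)
  (root : List Bool)

include h

lemma Splits.TR_le (y : ℕ → Bool) : LeA (TR Sp n c root y) (jn y c) := by
  rw [leA_iff]
  refine ⟨fun z m => ∃ σ : List Bool, ∃ s : List Bool, σ = yl (lft z) (m + 1) ∧
    TG Sp n root (rgt z) (σ, s) ∧ s.getD m false = true, ?_, ?_⟩
  · have b1 : Ar (fun (z : ℕ → Bool) (q : (ℕ × List Bool) × List Bool) =>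
        q.1.2 = yl (lft z) (q.1.1 + 1)) :=
      ar_yl.left.comp (Primrec.pair (Primrec.snd.comp Primrec.fst)
        (Primrec.succ.comp (Primrec.fst.comp Primrec.fst))).to_comp
    have b2 : Ar (fun (z : ℕ → Bool) (q : (ℕ × List Bool) × List Bool) =>
        TG Sp n root (rgt z) (q.1.2, q.2)) :=
      (ar_TG h.ar n root).right.comp (Primrec.pair (Primrec.snd.comp Primrec.fst)
        Primrec.snd).to_comp
    have b3 : Ar (fun (_ : ℕ → Bool) (q : (ℕ × List Bool) × List Bool) =>
        q.2.getD q.1.1 false = true) :=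
      Ar.of_prim (Primrec.eq.comp ((Primrec.list_getD false).comp Primrec.snd
        (Primrec.fst.comp Primrec.fst)) (Primrec.const true))
    exact (b1.and (b2.and b3)).ex.ex
  · intro m
    simp only [lft_jn, rgt_jn]
    constructor
    · intro hm
      exact ⟨_, _, rfl, (h.TG_iff n root _ _).2 rfl, hm⟩
    · rintro ⟨σ, s, rfl, h1, h2⟩
      rw [h.TG_iff] at h1
      subst h1
      exact h2

lemma Splits.le_TR (y : ℕ → Bool) : LeA y (jn (TR Sp n c root y) c) := by
  rw [leA_iff]
  refine ⟨fun z m => ∃ σ : List Bool, ∃ s : List Bool, σ.length = m + 1 ∧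
    TG Sp n root (rgt z) (σ, s) ∧ Ini (lft z) s ∧ σ.getD 0 false = true, ?_, ?_⟩
  · have b1 : Ar (fun (_ : ℕ → Bool) (q : (ℕ × List Bool) × List Bool) =>
        q.1.2.length = q.1.1 + 1) :=
      Ar.of_prim (Primrec.eq.comp (Primrec.list_length.comp (Primrec.snd.comp Primrec.fst))
        (Primrec.succ.comp (Primrec.fst.comp Primrec.fst)))
    have b2 : Ar (fun (z : ℕ → Bool) (q : (ℕ × List Bool) × List Bool) =>
        TG Sp n root (rgt z) (q.1.2, q.2)) :=
      (ar_TG h.ar n root).right.comp (Primrec.pair (Primrec.snd.comp Primrec.fst)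
        Primrec.snd).to_comp
    have b3 : Ar (fun (z : ℕ → Bool) (q : (ℕ × List Bool) × List Bool) => Ini (lft z) q.2) :=
      ar_ini.left.comp Primrec.snd.to_comp
    have b4 : Ar (fun (_ : ℕ → Bool) (q : (ℕ × List Bool) × List Bool) =>
        q.1.2.getD 0 false = true) :=
      Ar.of_prim (Primrec.eq.comp ((Primrec.list_getD false).comp (Primrec.snd.comp Primrec.fst)
        (Primrec.const 0)) (Primrec.const true))
    exact (b1.and (b2.and (b3.and b4))).ex.ex
  · intro m
    simp only [lft_jn, rgt_jn]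
    constructor
    · intro hm
      refine ⟨yl y (m + 1), _, length_yl y _, (h.TG_iff n root _ _).2 rfl, ?_, ?_⟩
      · exact h.pre_TR n root y (m + 1)
      · rw [yl, List.getD_cons_zero]
        exact hm
    · rintro ⟨σ, s, h0, h1, h2, h3⟩
      rw [h.TG_iff] at h1
      subst h1
      have h4 : σ = yl y (m + 1) :=
        h.index_unique n root (by rw [h0, length_yl]) h2 (h.pre_TR n root y (m + 1))
      subst h4
      rw [yl, List.getD_cons_zero] at h3
      exact h3

/-- for `y ≥ c` the real `x ⊕ c`, `x` the branch given by `y`, is equivalent to `y` -/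
lemma Splits.eqA_TR {y : ℕ → Bool} (hy : LeA c y) : EqA (jn (TR Sp n c root y) c) y := by
  constructor
  · refine jn_leA ?_ hy
    exact (h.TR_le n root y).trans (jn_leA (LeA.refl y) hy)
  · exact h.le_TR n root y

end

end AE
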