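import Pool.Agent.H79.AE.Sig

/-!
# A function of finite Borel class is constant or injective on a pointed tree of generic reals
-/

set_option autoImplicit false

namespace AE

open Encodable Set

/-- the full splitting relation -/
def Sp1 (_ : ℕ → Bool) (q : Tri) : Prop := q.2.1 = q.1 ++ [false] ∧ q.2.2 = q.1 ++ [true]

lemma splits1 (c : ℕ → Bool) : Splits Sp1 c where
  ar := by
    refine (Ar.of_prim ?_).and (Ar.of_prim ?_)
    · exact Primrec.eq.comp (Primrec.fst.comp Primrec.snd)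
        (Primrec.list_append.comp Primrec.fst (Primrec.const [false]))
    · exact Primrec.eq.comp (Primrec.snd.comp Primrec.snd)
        (Primrec.list_append.comp Primrec.fst (Primrec.const [true]))
  le0 := by
    rintro s t₀ t₁ ⟨h0, -⟩
    simp only at h0
    rw [h0]
    exact List.prefix_append _ _
  le1 := by
    rintro s t₀ t₁ ⟨-, h1⟩
    simp only at h1
    rw [h1]
    exact List.prefix_append _ _
  len := by
    rintro s t₀ t₁ ⟨h0, h1⟩
    simp only at h0 h1
    rw [h0, h1]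
    simp
  ne := by
    rintro s t₀ t₁ ⟨h0, h1⟩
    simp only at h0 h1
    rw [h0, h1]
    simp
  ex := fun s => ⟨s ++ [false], s ++ [true], rfl, rfl⟩

lemma Splits.ini_TR {Sp : (ℕ → Bool) → Tri → Prop} {c : ℕ → Bool} (h : Splits Sp c) (n : ℕ)
    (root : List Bool) (y : ℕ → Bool) : Ini (TR Sp n c root y) root :=
  h.pre_TR n root y 0

/-- there are generic reals with any given initial segment -/
lemma exists_dc (c : ℕ → Bool) (N : ℕ) (s : List Bool) : ∃ x, Ini x s ∧ Dc c N x :=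
  ⟨TR Sp1 N c s (fun _ => false), (splits1 c).ini_TR N s _, (splits1 c).Dc_TR N s _⟩

/-- the splitting relation which separates the values -/
def Sp2 (N : ℕ) (c : ℕ → Bool) (q : Tri) : Prop :=
  q.1 <+: q.2.1 ∧ q.1 <+: q.2.2 ∧ q.2.1.length = q.2.2.length ∧ ¬ q.2.1 = q.2.2 ∧
    ∃ p : ℕ × ℕ, lft (rgt c) (encode p) = true ∧ Fo c N q.2.1 [p.1] ∧ Fo c N q.2.2 [p.2]

lemma ar_Sp2 (N : ℕ) : Ar (Sp2 N) := by
  have a1 : Ar (fun (_ : ℕ → Bool) (q : Tri) => q.1 <+: q.2.1) :=
    Ar.of_prim (primrec_prefix Primrec.fst (Primrec.fst.comp Primrec.snd))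
  have a2 : Ar (fun (_ : ℕ → Bool) (q : Tri) => q.1 <+: q.2.2) :=
    Ar.of_prim (primrec_prefix Primrec.fst (Primrec.snd.comp Primrec.snd))
  have a3 : Ar (fun (_ : ℕ → Bool) (q : Tri) => q.2.1.length = q.2.2.length) :=
    Ar.of_prim (Primrec.eq.comp (Primrec.list_length.comp (Primrec.fst.comp Primrec.snd))
      (Primrec.list_length.comp (Primrec.snd.comp Primrec.snd)))
  have a4 : Ar (fun (_ : ℕ → Bool) (q : Tri) => q.2.1 = q.2.2) :=
    Ar.of_prim (Primrec.eq.comp (Primrec.fst.comp Primrec.snd) (Primrec.snd.comp Primrec.snd))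
  have a5 : Ar (fun (c : ℕ → Bool) (q : Tri × (ℕ × ℕ)) => lft (rgt c) (encode q.2) = true) :=
    ar_lft.right.comp (Primrec.encode.comp Primrec.snd).to_comp
  have sing : Primrec (fun j : ℕ => [j]) :=
    Primrec.list_cons.comp Primrec.id (Primrec.const [])
  have a6 : Ar (fun (c : ℕ → Bool) (q : Tri × (ℕ × ℕ)) => Fo c N q.1.2.1 [q.2.1]) :=
    (ar_Fo N).comp (Primrec.pair (Primrec.fst.comp (Primrec.snd.comp Primrec.fst))
      (sing.comp (Primrec.fst.comp Primrec.snd))).to_comp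
  have a7 : Ar (fun (c : ℕ → Bool) (q : Tri × (ℕ × ℕ)) => Fo c N q.1.2.2 [q.2.2]) :=
    (ar_Fo N).comp (Primrec.pair (Primrec.snd.comp (Primrec.snd.comp Primrec.fst))
      (sing.comp (Primrec.snd.comp Primrec.snd))).to_comp
  exact a1.and (a2.and (a3.and (a4.neg.and (a5.and (a6.and a7)).ex)))

/-- the parameter `c` codes the function `f` -/
structure Cd {X : Type*} (U : ℕ → Set X) (f : (ℕ → Bool) → X) (N : ℕ) (c : ℕ → Bool) :
    Prop where
  sep : ∀ a b, a ≠ b → ∃ i j, a ∈ U i ∧ b ∈ U j ∧ Disjoint (U i) (U j)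
  code : ∀ j z, Bs (lft c) N [j] z ↔ f z ∈ U j
  dis : ∀ i j, lft (rgt c) (encode (i, j)) = true ↔ Disjoint (U i) (U j)

section

variable {X : Type*} {U : ℕ → Set X} {f : (ℕ → Bool) → X} {N : ℕ} {c : ℕ → Bool}

lemma Cd.forces (h : Cd U f N c) {x : ℕ → Bool} (hx : Dc c N x) (j : ℕ) :
    f (jn x c) ∈ U j ↔ ∃ l, Fo c N (pre x l) [j] := by
  rw [← h.code, truth hx le_rfl]

lemma pre_of_ini {x : ℕ → Bool} {s : List Bool} (h : Ini x s) {L : ℕ} (hL : s.length ≤ L) :
    s <+: pre x L := by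
  have h1 := pre_prefix x hL
  rwa [h] at h1

lemma Cd.splits2 (h : Cd U f N c) (hs : ∀ s, ∃ z₀ z₁, Ini z₀ s ∧ Ini z₁ s ∧ Dc c N z₀ ∧
    Dc c N z₁ ∧ f (jn z₀ c) ≠ f (jn z₁ c)) : Splits (Sp2 N) c where
  ar := ar_Sp2 N
  le0 := fun s t₀ t₁ h => h.1
  le1 := fun s t₀ t₁ h => h.2.1
  len := fun s t₀ t₁ h => h.2.2.1
  ne := fun s t₀ t₁ h => h.2.2.2.1
  ex := by
    intro s
    obtain ⟨z₀, z₁, i0, i1, d0, d1, hne⟩ := hs s
    obtain ⟨i, j, hi, hj, hij⟩ := h.sep _ _ hne
    obtain ⟨l₀, hl₀⟩ := (h.forces d0 i).1 hi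
    obtain ⟨l₁, hl₁⟩ := (h.forces d1 j).1 hj
    obtain ⟨L, hL⟩ : ∃ L, L = max (max l₀ l₁) s.length := ⟨_, rfl⟩
    have f0 : Fo c N (pre z₀ L) [i] := hl₀.mono (pre_prefix z₀ (by omega))
    have f1 : Fo c N (pre z₁ L) [j] := hl₁.mono (pre_prefix z₁ (by omega))
    refine ⟨pre z₀ L, pre z₁ L, pre_of_ini i0 (by omega), pre_of_ini i1 (by omega), by simp, ?_,
      (i, j), (h.dis i j).2 hij, f0, f1⟩
    intro heq
    simp only at heq
    rw [← heq] at f1
    obtain ⟨x, hx, hx'⟩ := exists_dc c N (pre z₀ L)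
    have e1 : f (jn x c) ∈ U i := (h.forces hx' i).2 ⟨(pre z₀ L).length, by rw [hx]; exact f0⟩
    have e2 : f (jn x c) ∈ U j := (h.forces hx' j).2 ⟨(pre z₀ L).length, by rw [hx]; exact f1⟩
    exact Set.disjoint_left.1 hij e1 e2

lemma exists_first {y y' : ℕ → Bool} (h : y ≠ y') : ∃ m, yl y m = yl y' m ∧ y m ≠ y' m := by
  classical
  have h1 : ∃ m, y m ≠ y' m := by
    by_contra hc
    push Not at hc
    exact h (funext hc)
  refine ⟨Nat.find h1, ?_, Nat.find_spec h1⟩
  have h2 : ∀ k, k ≤ Nat.find h1 → yl y k = yl y' k := by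
    intro k
    induction k with
    | zero => exact fun _ => rfl
    | succ k ih =>
      intro hk
      have h3 := Nat.find_min h1 (m := k) (by omega)
      rw [not_not] at h3
      rw [yl, yl, ih (by omega), h3]
  exact h2 _ le_rfl

lemma Cd.inj2 (h : Cd U f N c) (hsp : Splits (Sp2 N) c) (root : List Bool) :
    Function.Injective (fun y => f (jn (TR (Sp2 N) N c root y) c)) := by
  have key : ∀ (y y' : ℕ → Bool) m, yl y m = yl y' m → y m = false → y' m = true →
      f (jn (TR (Sp2 N) N c root y) c) ≠ f (jn (TR (Sp2 N) N c root y') c) := by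
    intro y y' m hm h0 h1 heq
    obtain ⟨t₀, t₁, hs, a0, a1, -, -⟩ := hsp.succ N root (yl y m)
    obtain ⟨-, -, -, -, ⟨i, j⟩, hd, f0, f1⟩ := hs
    rw [h.dis] at hd
    have e0 : yl y (m + 1) = false :: yl y m := by rw [yl, h0]
    have e1 : yl y' (m + 1) = true :: yl y m := by rw [yl, h1, hm]
    have g0 : f (jn (TR (Sp2 N) N c root y) c) ∈ U i := by
      rw [h.forces (hsp.Dc_TR N root y)]
      refine ⟨(Tr (Sp2 N) N c root (yl y (m + 1))).length, ?_⟩
      rw [hsp.pre_TR, e0]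
      exact f0.mono a0
    have g1 : f (jn (TR (Sp2 N) N c root y') c) ∈ U j := by
      rw [h.forces (hsp.Dc_TR N root y')]
      refine ⟨(Tr (Sp2 N) N c root (yl y' (m + 1))).length, ?_⟩
      rw [hsp.pre_TR, e1]
      exact f1.mono a1
    rw [heq] at g0
    exact Set.disjoint_left.1 hd g0 g1
  intro y y' heq
  by_contra hne
  obtain ⟨m, h1, h2⟩ := exists_first hne
  cases h3 : y m with
  | false =>
    cases h4 : y' m with
    | false => rw [h3, h4] at h2; exact h2 rfl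
    | true => exact key y y' m h1 h3 h4 heq
  | true =>
    cases h4 : y' m with
    | false => exact key y' y m h1.symm h4 h3 heq.symm
    | true => rw [h3, h4] at h2; exact h2 rfl

end

/-! ### continuity -/

lemma isOpen_yl (k : ℕ) (σ : List Bool) : IsOpen {y : ℕ → Bool | yl y k = σ} := by
  have h1 : {y : ℕ → Bool | yl y k = σ} = ({_y : ℕ → Bool | σ.length = k} ∩
      ⋂ i ∈ Finset.range k,
        {y : ℕ → Bool | (σ.getD (k - 1 - i) false = true ↔ y i = true)}) := by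
    ext y
    simp only [mem_ofPred_eq, mem_iInter, mem_inter_iff, Finset.mem_range]
    rw [eq_comm, yl_iff]
  rw [h1]
  refine IsOpen.inter isOpen_const (isOpen_biInter_finset fun i _ => ?_)
  have h2 : {y : ℕ → Bool | (σ.getD (k - 1 - i) false = true ↔ y i = true)} =
      (fun y : ℕ → Bool => y i) ⁻¹' {b | (σ.getD (k - 1 - i) false = true ↔ b = true)} := rfl
  rw [h2]
  exact (isOpen_discrete _).preimage (continuous_apply i)

lemma continuous_TR (Sp : (ℕ → Bool) → Tri → Prop) (n : ℕ) (c : ℕ → Bool) (root : List Bool) :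
    Continuous (fun y => TR Sp n c root y) := by
  refine continuous_pi fun m => ?_
  rw [continuous_def]
  intro S _
  have h1 : (fun y : ℕ → Bool => TR Sp n c root y m) ⁻¹' S =
      ⋃ σ : List Bool, {y : ℕ → Bool | yl y (m + 1) = σ} ∩
        {_y : ℕ → Bool | (Tr Sp n c root σ).getD m false ∈ S} := by
    ext y
    simp only [mem_ofPred_eq, mem_iUnion, mem_inter_iff, mem_preimage]
    constructor
    · intro h
      exact ⟨_, rfl, h⟩
    · rintro ⟨σ, rfl, h⟩
      exact h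
  rw [h1]
  exact isOpen_iUnion fun σ => (isOpen_yl _ _).inter isOpen_const

lemma continuous_jn (c : ℕ → Bool) : Continuous (fun x => jn x c) := by
  refine continuous_pi fun m => ?_
  unfold jn
  by_cases h : m % 2 = 0
  · simp only [if_pos h]
    exact continuous_apply _
  · simp only [if_neg h]
    exact continuous_const

/-- the main lemma -/
theorem Cd.main {X : Type*} {U : ℕ → Set X} {f : (ℕ → Bool) → X} {N : ℕ} {c : ℕ → Bool}
    (h : Cd U f N c) : ∃ τ : (ℕ → Bool) → (ℕ → Bool), Continuous τ ∧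
      (∀ y, LeA c y → EqA (τ y) y) ∧
      ((∃ a, ∀ y, f (τ y) = a) ∨ Function.Injective fun y => f (τ y)) := by
  by_cases hs : ∀ s, ∃ z₀ z₁, Ini z₀ s ∧ Ini z₁ s ∧ Dc c N z₀ ∧
    Dc c N z₁ ∧ f (jn z₀ c) ≠ f (jn z₁ c)
  · have hsp := h.splits2 hs
    refine ⟨fun y => jn (TR (Sp2 N) N c [] y) c,
      (continuous_jn c).comp (continuous_TR _ _ _ _), fun y hy => hsp.eqA_TR N [] hy,
      Or.inr (h.inj2 hsp [])⟩
  · push Not at hs
    obtain ⟨s, hs⟩ := hs
    have hsp := splits1 c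
    refine ⟨fun y => jn (TR Sp1 N c s y) c,
      (continuous_jn c).comp (continuous_TR _ _ _ _), fun y hy => hsp.eqA_TR N s hy,
      Or.inl ⟨f (jn (TR Sp1 N c s fun _ => false) c), fun y => ?_⟩⟩
    exact hs _ _ (hsp.ini_TR N s y) (hsp.ini_TR N s _) (hsp.Dc_TR N s y) (hsp.Dc_TR N s _)

end AE
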