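import Mathlib

/-!
# Arithmetic reducibility and countable Borel equivalence relations: definitions
-/

set_option autoImplicit false

namespace AE

open Nat.Partrec (Code)

/-- Formulas of arithmetic with one free number variable `n` and one set variable `x`.
* `orc`: `n ∈ x`;  * `zero`: `n = 0`;
* `sub c φ`: `φ(m)`, where `m` is the value at `n` of the partial recursive function with code `c`;
* `neg φ`: `¬ φ`;  * `conj φ ψ`: `φ ∧ ψ`;  * `ex φ`: `∃ m, φ(⟨n, m⟩)`. -/
inductive Fm : Type
  | orc : Fm
  | zero : Fm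
  | sub : Code → Fm → Fm
  | neg : Fm → Fm
  | conj : Fm → Fm → Fm
  | ex : Fm → Fm

/-- Satisfaction: `φ.Sat x n` says that `φ` holds for the set `x` and the number `n`. -/
def Fm.Sat : Fm → (ℕ → Bool) → ℕ → Prop
  | .orc, x, n => x n = true
  | .zero, _, n => n = 0
  | .sub c φ, x, n => ∃ m ∈ c.eval n, φ.Sat x m
  | .neg φ, x, n => ¬ φ.Sat x n
  | .conj φ ψ, x, n => φ.Sat x n ∧ ψ.Sat x n
  | .ex φ, x, n => ∃ m, φ.Sat x (Nat.pair n m)

/-- `y ≤_A x`: `y` is arithmetical in `x`. -/
def LeA (y x : ℕ → Bool) : Prop := ∃ φ : Fm, ∀ n, y n = true ↔ φ.Sat x n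

/-- `x ≡_A y`: arithmetic equivalence. -/
def EqA (x y : ℕ → Bool) : Prop := LeA x y ∧ LeA y x

/-- `Sig n` are the sets in the Borel class `Σ⁰_{n+1}` of `2^ω`: `Sig 0` are the open sets,
`Sig (n + 1)` the countable unions of complements of sets in `Sig n`. -/
def Sig : ℕ → Set (ℕ → Bool) → Prop
  | 0, A => IsOpen A
  | n + 1, A => ∃ B : ℕ → Set (ℕ → Bool), (∀ k, Sig n (B k)) ∧ A = ⋃ k, (B k)ᶜ

/-- `f` is of finite Borel class: for some fixed `n` the preimages of open sets are in
`Σ⁰_{n+1}`. -/
def FinClass {X : Type} [TopologicalSpace X] (f : (ℕ → Bool) → X) : Prop :=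
  ∃ n, ∀ U, IsOpen U → Sig n (f ⁻¹' U)

/-- `E` is a countable Borel equivalence relation. -/
structure CBER {X : Type} [MeasurableSpace X] (E : X → X → Prop) : Prop where
  equiv : Equivalence E
  borel : MeasurableSet {p : X × X | E p.1 p.2}
  ctbl : ∀ x, {y | E x y}.Countable

/-- `f` is a Borel homomorphism from `E` to `F`. -/
structure Hom {X Y : Type} [MeasurableSpace X] [MeasurableSpace Y] (E : X → X → Prop)
    (F : Y → Y → Prop) (f : X → Y) : Prop where
  borel : Measurable f
  hom : ∀ x x', E x x' → F (f x) (f x')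

/-- every countable Borel equivalence relation (on a Polish space) is Borel reducible to `F` -/
def Universal {Y : Type} [MeasurableSpace Y] (F : Y → Y → Prop) : Prop :=
  ∀ (Z : Type) [TopologicalSpace Z] [PolishSpace Z] [MeasurableSpace Z] [BorelSpace Z]
    (R : Z → Z → Prop), CBER R → ∃ f : Z → Y, Measurable f ∧ ∀ z z', R z z' ↔ F (f z) (f z')

/-- `E` contains a universal countable Borel equivalence relation. -/
def WeaklyUniversal {X : Type} [MeasurableSpace X] (E : X → X → Prop) : Prop :=
  ∃ F : X → X → Prop, CBER F ∧ (∀ x y, F x y → E x y) ∧ Universal F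

/-- `f` maps an arithmetic cone into one `E`-class. -/
def ConstOnCone {X : Type} (E : X → X → Prop) (f : (ℕ → Bool) → X) : Prop :=
  ∃ (p : ℕ → Bool) (a : X), ∀ x, LeA p x → E (f x) a

/-- `≡_A` is `E`-ergodic with respect to the arithmetic cone measure. -/
def Ergodic {X : Type} [MeasurableSpace X] (E : X → X → Prop) : Prop :=
  ∀ f : (ℕ → Bool) → X, Hom EqA E f → ConstOnCone E f

/-- up to `E` and on an arithmetic cone, `f` is of finite Borel class -/
def FinOnCone {X : Type} [TopologicalSpace X] (E : X → X → Prop) (f : (ℕ → Bool) → X) : Prop :=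
  ∃ (p : ℕ → Bool) (f' : (ℕ → Bool) → X), FinClass f' ∧ ∀ x, LeA p x → E (f' x) (f x)

/-- In the finite Borel classes `E` contains a copy of `≡_A` on a cone: there are a countable Borel
equivalence relation `F ⊆ E`, an arithmetic cone and an injective map `g` of finite Borel class
which is a reduction of `≡_A` to `F` on this cone. -/
def FinContains {X : Type} [TopologicalSpace X] [MeasurableSpace X] (E : X → X → Prop) : Prop :=
  ∃ (F : X → X → Prop) (c : ℕ → Bool) (g : (ℕ → Bool) → X), CBER F ∧
    (∀ x y, F x y → E x y) ∧ FinClass g ∧ Function.Injective g ∧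
    ∀ y y', LeA c y → LeA c y' → (EqA y y' ↔ F (g y) (g y'))

/-- `≡_A` is `E`-ergodic for the homomorphisms which are of finite Borel class on a cone and up
to `E` -/
def FinErgodic {X : Type} [TopologicalSpace X] (E : X → X → Prop) : Prop :=
  ∀ f : (ℕ → Bool) → X, (∀ x x', EqA x x' → E (f x) (f x')) → FinOnCone E f → ConstOnCone E f

/-- `f` is regressive on a cone, up to `E` and through a map `φ` of finite Borel class: on a cone,
`f x` is `E`-equivalent to `φ (h x)` with `h x ≤_A x` (if `X` is the Cantor space, one can take the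
identity for `φ`) -/
def RegOnCone {X : Type} [TopologicalSpace X] (E : X → X → Prop) (f : (ℕ → Bool) → X) : Prop :=
  ∃ (p : ℕ → Bool) (h : (ℕ → Bool) → ℕ → Bool) (φ : (ℕ → Bool) → X), Measurable h ∧
    FinClass φ ∧ ∀ x, LeA p x → LeA (h x) x ∧ E (φ (h x)) (f x)

/-- the restriction of `≡_A` to every arithmetic cone is universal (a theorem of Slaman and
Steel) -/
def ConesUniversal : Prop :=
  ∀ (p : ℕ → Bool) (Z : Type) [TopologicalSpace Z] [PolishSpace Z] [MeasurableSpace Z]
    [BorelSpace Z] (R : Z → Z → Prop), CBER R → ∃ f : Z → ℕ → Bool, Measurable f ∧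
      (∀ z, LeA p (f z)) ∧ ∀ z z', R z z' ↔ EqA (f z) (f z')

/-- Martin's theorem on pointed perfect trees, for the arithmetic degrees: if countably many Borel
sets cover an arithmetic cone, then one of them contains the branches of a pointed perfect tree
(`τ y` is the branch of the tree given by `y`). -/
def PointedTrees : Prop :=
  ∀ B : ℕ → Set (ℕ → Bool), (∀ n, MeasurableSet (B n)) →
    (∃ p, ∀ x, LeA p x → ∃ n, x ∈ B n) →
    ∃ (n : ℕ) (p : ℕ → Bool) (τ : (ℕ → Bool) → (ℕ → Bool)), Continuous τ ∧
      ∀ y, LeA p y → EqA (τ y) y ∧ τ y ∈ B n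

end AE
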