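import Pool.Agent.H79.AE.Arith

set_option autoImplicit false

namespace AE

open Encodable

/-- the first `k` bits of `z` -/
def pre (z : ℕ → Bool) (k : ℕ) : List Bool := (List.range k).map z

@[simp] lemma length_pre (z : ℕ → Bool) (k : ℕ) : (pre z k).length = k := by simp [pre]

lemma getD_pre (z : ℕ → Bool) {k i : ℕ} (h : i < k) : (pre z k).getD i false = z i := by
  simp [pre, List.getD_eq_getElem?_getD, h]

/-- codes for Borel sets of finite rank: `Bs w m u` is the set of level `m` with index `u` -/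
def Bs (w : ℕ → Bool) : ℕ → List ℕ → (ℕ → Bool) → Prop
  | 0, u, z => w (encode (u, pre z (u.headD 0))) = true
  | m + 1, u, z => ∃ k, ¬ Bs w m (k :: u) z

/-- the first `k` bits of `s ⊕ c` -/
def mix (s : List Bool) (c : ℕ → Bool) (k : ℕ) : List Bool :=
  (List.range k).map fun i => if i % 2 = 0 then s.getD (i / 2) false else c (i / 2)

/-- forcing for the sets `{x | Bs (lft c) m u (jn x c)}` -/
def Fo (c : ℕ → Bool) : ℕ → List Bool → List ℕ → Prop
  | 0, s, u => u.headD 0 ≤ 2 * s.length ∧
      lft c (encode (u, mix s c (u.headD 0))) = true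
  | m + 1, s, u => ∃ k, ∀ t, s <+: t → ¬ Fo c m t (k :: u)

lemma getD_of_prefix {s t : List Bool} (h : s <+: t) {i : ℕ} (hi : i < s.length) :
    t.getD i false = s.getD i false := by
  obtain ⟨r, rfl⟩ := h
  simp [List.getD_eq_getElem?_getD, List.getElem?_append_left hi]

lemma mix_mono {s t : List Bool} (h : s <+: t) (c : ℕ → Bool) {k : ℕ} (hk : k ≤ 2 * s.length) :
    mix t c k = mix s c k := by
  unfold mix
  refine List.map_congr_left fun i hi => ?_
  have hi' : i < k := List.mem_range.1 hi
  by_cases he : i % 2 = 0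
  · rw [if_pos he, if_pos he]
    exact getD_of_prefix h (by omega)
  · rw [if_neg he, if_neg he]

lemma mix_pre (x c : ℕ → Bool) {k l : ℕ} (hk : k ≤ 2 * l) :
    mix (pre x l) c k = pre (jn x c) k := by
  unfold mix
  refine List.map_congr_left fun i hi => ?_
  have hi' : i < k := List.mem_range.1 hi
  by_cases he : i % 2 = 0
  · rw [if_pos he, getD_pre x (by omega)]
    simp [jn, he]
  · rw [if_neg he]
    simp [jn, he]

lemma Fo.mono {c : ℕ → Bool} {m : ℕ} {s t : List Bool} {u : List ℕ} (h : s <+: t)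
    (hs : Fo c m s u) : Fo c m t u := by
  cases m with
  | zero =>
    refine ⟨hs.1.trans (Nat.mul_le_mul_left 2 h.length_le), ?_⟩
    rw [mix_mono h c hs.1]
    exact hs.2
  | succ m =>
    obtain ⟨k, hk⟩ := hs
    exact ⟨k, fun r hr => hk r (h.trans hr)⟩

/-- `s` decides the set of level `m` with index `u` -/
def Dec (c : ℕ → Bool) (m : ℕ) (s : List Bool) (u : List ℕ) : Prop :=
  Fo c m s u ∨ ∀ t, s <+: t → ¬ Fo c m t u

lemma Dec.mono {c : ℕ → Bool} {m : ℕ} {s t : List Bool} {u : List ℕ} (h : s <+: t)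
    (hs : Dec c m s u) : Dec c m t u := by
  rcases hs with hs | hs
  · exact Or.inl (hs.mono h)
  · exact Or.inr fun r hr => hs r (h.trans hr)

lemma exists_dec (c : ℕ → Bool) (m : ℕ) (s : List Bool) (u : List ℕ) :
    ∃ t, s <+: t ∧ Dec c m t u := by
  by_cases h : ∃ t, s <+: t ∧ Fo c m t u
  · obtain ⟨t, h1, h2⟩ := h
    exact ⟨t, h1, Or.inl h2⟩
  · push Not at h
    exact ⟨s, List.prefix_rfl, Or.inr h⟩

/-- `s` decides the sets of level `≤ n` with index `u` -/
def DecAll (c : ℕ → Bool) : ℕ → List Bool → List ℕ → Prop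
  | 0, s, u => Dec c 0 s u
  | n + 1, s, u => DecAll c n s u ∧ Dec c (n + 1) s u

lemma DecAll.mono {c : ℕ → Bool} {n : ℕ} {s t : List Bool} {u : List ℕ} (h : s <+: t)
    (hs : DecAll c n s u) : DecAll c n t u := by
  induction n with
  | zero => exact Dec.mono h hs
  | succ n ih => exact ⟨ih hs.1, hs.2.mono h⟩

lemma DecAll.dec {c : ℕ → Bool} {n m : ℕ} {s : List Bool} {u : List ℕ}
    (hs : DecAll c n s u) (hm : m ≤ n) : Dec c m s u := by
  induction n with
  | zero =>
    have : m = 0 := by omega
    subst this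
    exact hs
  | succ n ih =>
    rcases Nat.lt_or_ge n m with h | h
    · have : m = n + 1 := by omega
      subst this
      exact hs.2
    · exact ih hs.1 h

lemma exists_decAll (c : ℕ → Bool) (n : ℕ) (s : List Bool) (u : List ℕ) :
    ∃ t, s <+: t ∧ DecAll c n t u := by
  induction n with
  | zero => exact exists_dec c 0 s u
  | succ n ih =>
    obtain ⟨t, h1, h2⟩ := ih
    obtain ⟨r, h3, h4⟩ := exists_dec c (n + 1) t u
    exact ⟨r, h1.trans h3, h2.mono h3, h4⟩

/-- `x` decides all sets of level `≤ n` -/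
def Dc (c : ℕ → Bool) (n : ℕ) (x : ℕ → Bool) : Prop :=
  ∀ m ≤ n, ∀ u, ∃ l, Dec c m (pre x l) u

lemma pre_prefix (x : ℕ → Bool) {k l : ℕ} (h : k ≤ l) : pre x k <+: pre x l := by
  unfold pre
  refine List.IsPrefix.map _ ?_
  obtain ⟨d, rfl⟩ := Nat.exists_eq_add_of_le h
  rw [List.range_add]
  exact List.prefix_append _ _

/-- truth lemma -/
lemma truth {c : ℕ → Bool} {n : ℕ} {x : ℕ → Bool} (hx : Dc c n x) {m : ℕ} (hm : m ≤ n) (u : List ℕ) :
    Bs (lft c) m u (jn x c) ↔ ∃ l, Fo c m (pre x l) u := by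
  induction m generalizing u with
  | zero =>
    constructor
    · intro h
      refine ⟨u.headD 0, ?_, ?_⟩
      · rw [length_pre]; omega
      · rw [mix_pre x c (by omega)]
        exact h
    · rintro ⟨l, h1, h2⟩
      rw [length_pre] at h1
      rw [mix_pre x c h1] at h2
      exact h2
  | succ m ih =>
    have hm' : m ≤ n := by omega
    constructor
    · rintro ⟨k, hk⟩
      rw [ih hm' (k :: u)] at hk
      push Not at hk
      obtain ⟨l, hl⟩ := hx m hm' (k :: u)
      rcases hl with hl | hl
      · exact absurd hl (hk l)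
      · exact ⟨l, k, hl⟩
    · rintro ⟨l, k, hk⟩
      refine ⟨k, fun hb => ?_⟩
      obtain ⟨l', hl'⟩ := (ih hm' (k :: u)).1 hb
      refine hk (pre x (max l l')) (pre_prefix x (le_max_left _ _)) ?_
      exact hl'.mono (pre_prefix x (le_max_right _ _))

/-! ### arithmeticity of the forcing relation -/

lemma ar_mix : Ar (fun c (q : (List Bool × ℕ) × List Bool) => q.2 = mix q.1.1 c q.1.2) := by
  -- q = ((s, k), w)
  have h1 : Ar (fun (_ : ℕ → Bool) (q : (List Bool × ℕ) × List Bool) => q.2.length = q.1.2) :=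
    Ar.of_prim (Primrec.eq.comp (Primrec.list_length.comp Primrec.snd)
      (Primrec.snd.comp Primrec.fst))
  have h2 : Ar (fun (c : ℕ → Bool) (q : ((List Bool × ℕ) × List Bool) × ℕ) =>
      q.2 < q.1.1.2 → (q.1.2.getD q.2 false = true ↔
        ((q.2 % 2 = 0 ∧ q.1.1.1.getD (q.2 / 2) false = true) ∨
          (¬ q.2 % 2 = 0 ∧ c (q.2 / 2) = true)))) := by
    have a1 : Ar (fun (_ : ℕ → Bool) (q : ((List Bool × ℕ) × List Bool) × ℕ) =>
        q.2 < q.1.1.2) :=
      Ar.of_prim (Primrec.nat_lt.comp Primrec.snd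
        (Primrec.snd.comp (Primrec.fst.comp Primrec.fst)))
    have a2 : Ar (fun (_ : ℕ → Bool) (q : ((List Bool × ℕ) × List Bool) × ℕ) =>
        q.1.2.getD q.2 false = true) :=
      Ar.of_prim (Primrec.eq.comp ((Primrec.list_getD false).comp
        (Primrec.snd.comp Primrec.fst) Primrec.snd) (Primrec.const true))
    have a3 : Ar (fun (_ : ℕ → Bool) (q : ((List Bool × ℕ) × List Bool) × ℕ) =>
        q.2 % 2 = 0) :=
      Ar.of_prim (Primrec.eq.comp (Primrec.nat_mod.comp Primrec.snd (Primrec.const 2))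
        (Primrec.const 0))
    have a4 : Ar (fun (_ : ℕ → Bool) (q : ((List Bool × ℕ) × List Bool) × ℕ) =>
        q.1.1.1.getD (q.2 / 2) false = true) :=
      Ar.of_prim (Primrec.eq.comp ((Primrec.list_getD false).comp
        (Primrec.fst.comp (Primrec.fst.comp Primrec.fst))
        (Primrec.nat_div.comp Primrec.snd (Primrec.const 2))) (Primrec.const true))
    have a5 : Ar (fun (c : ℕ → Bool) (q : ((List Bool × ℕ) × List Bool) × ℕ) =>
        c (q.2 / 2) = true) :=
      Ar.orc.comp (Primrec.nat_div.comp Primrec.snd (Primrec.const 2)).to_comp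
    exact a1.imp (a2.iff ((a3.and a4).or (a3.neg.and a5)))
  refine (h1.and h2.all).congr fun c q => ?_
  obtain ⟨⟨s, k⟩, w⟩ := q
  simp only
  constructor
  · rintro rfl
    refine ⟨by simp [mix], fun i hi => ?_⟩
    by_cases he : i % 2 = 0
    · simp [mix, List.getD_eq_getElem?_getD, hi, he]
    · simp [mix, List.getD_eq_getElem?_getD, hi, he]
  · rintro ⟨hl, h⟩
    apply List.ext_getElem
    · simp [mix, hl]
    · intro i h1 h2
      have hi : i < k := by omega
      have h3 := h i hi
      rw [List.getD_eq_getElem _ _ h1] at h3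
      by_cases he : i % 2 = 0
      · simp only [he, true_and, not_true_eq_false, false_and, or_false] at h3
        rw [Bool.eq_iff_iff, h3]
        simp [mix, he]
      · simp only [he, false_and, not_false_eq_true, true_and, false_or] at h3
        rw [Bool.eq_iff_iff, h3]
        simp [mix, he]

lemma primrec_prefix {α : Type} [Primcodable α] {f g : α → List Bool} (hf : Primrec f)
    (hg : Primrec g) : PrimrecPred fun a => f a <+: g a := by
  have h : PrimrecPred fun a => f a = (g a).take (f a).length :=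
    Primrec.eq.comp hf (Primrec.list_take.comp (Primrec.list_length.comp hf) hg)
  refine h.of_eq fun a => ?_
  exact List.prefix_iff_eq_take.symm

lemma ar_Fo (m : ℕ) : Ar (fun c (q : List Bool × List ℕ) => Fo c m q.1 q.2) := by
  induction m with
  | zero =>
    have a1 : Ar (fun (_ : ℕ → Bool) (q : List Bool × List ℕ) =>
        q.2.headD 0 ≤ 2 * q.1.length) := by
      refine Ar.of_prim (Primrec.nat_le.comp ?_ ?_)
      · have : Primrec (fun q : List Bool × List ℕ => q.2.head?.getD 0) :=
          Primrec.option_getD.comp (Primrec.list_head?.comp Primrec.snd) (Primrec.const 0)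
        exact this.of_eq fun q => by simp [List.headD_eq_head?_getD]
      · exact Primrec.nat_mul.comp (Primrec.const 2) (Primrec.list_length.comp Primrec.fst)
    have hhead : Primrec (fun u : List ℕ => u.headD 0) := by
      have : Primrec (fun u : List ℕ => u.head?.getD 0) :=
        Primrec.option_getD.comp Primrec.list_head? (Primrec.const 0)
      exact this.of_eq fun q => by simp [List.headD_eq_head?_getD]
    have a2 : Ar (fun (c : ℕ → Bool) (q : (List Bool × List ℕ) × List Bool) =>
        q.2 = mix q.1.1 c (q.1.2.headD 0) ∧ lft c (encode (q.1.2, q.2)) = true) := by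
      refine Ar.and ?_ ?_
      · have hg : Primrec (fun q : (List Bool × List ℕ) × List Bool =>
            ((q.1.1, q.1.2.headD 0), q.2)) :=
          Primrec.pair (Primrec.pair (Primrec.fst.comp Primrec.fst)
            (hhead.comp (Primrec.snd.comp Primrec.fst))) Primrec.snd
        exact ar_mix.comp hg.to_comp
      · have hg : Primrec (fun q : (List Bool × List ℕ) × List Bool =>
            encode (q.1.2, q.2)) :=
          Primrec.encode.comp (Primrec.pair (Primrec.snd.comp Primrec.fst) Primrec.snd)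
        exact ar_lft.comp hg.to_comp
    refine (a1.and a2.ex).congr fun c q => ?_
    simp only [Fo]
    constructor
    · rintro ⟨h1, h2⟩
      exact ⟨h1, _, rfl, h2⟩
    · rintro ⟨h1, w, rfl, h2⟩
      exact ⟨h1, h2⟩
  | succ m ih =>
    have a1 : Ar (fun (c : ℕ → Bool) (q : ((List Bool × List ℕ) × ℕ) × List Bool) =>
        q.1.1.1 <+: q.2 → ¬ Fo c m q.2 (q.1.2 :: q.1.1.2)) := by
      refine Ar.imp ?_ (Ar.neg ?_)
      · exact Ar.of_prim (primrec_prefix (Primrec.fst.comp (Primrec.fst.comp Primrec.fst))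
          Primrec.snd)
      · have hg : Primrec (fun q : ((List Bool × List ℕ) × ℕ) × List Bool =>
            (q.2, q.1.2 :: q.1.1.2)) :=
          Primrec.pair Primrec.snd (Primrec.list_cons.comp (Primrec.snd.comp Primrec.fst)
            (Primrec.snd.comp (Primrec.fst.comp Primrec.fst)))
        exact ih.comp hg.to_comp
    exact a1.all.ex

lemma ar_Dec (m : ℕ) : Ar (fun c (q : List Bool × List ℕ) => Dec c m q.1 q.2) := by
  have a1 : Ar (fun (c : ℕ → Bool) (q : (List Bool × List ℕ) × List Bool) =>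
      q.1.1 <+: q.2 → ¬ Fo c m q.2 q.1.2) := by
    refine Ar.imp ?_ (Ar.neg ?_)
    · exact Ar.of_prim (primrec_prefix (Primrec.fst.comp Primrec.fst) Primrec.snd)
    · have hg : Primrec (fun q : (List Bool × List ℕ) × List Bool => (q.2, q.1.2)) :=
        Primrec.pair Primrec.snd (Primrec.snd.comp Primrec.fst)
      exact (ar_Fo m).comp hg.to_comp
  exact (ar_Fo m).or a1.all

lemma ar_DecAll (n : ℕ) : Ar (fun c (q : List Bool × List ℕ) => DecAll c n q.1 q.2) := by
  induction n with
  | zero => exact ar_Dec 0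
  | succ n ih => exact ih.and (ar_Dec (n + 1))

/-- selection of the element with the least code -/
def Lst {α β : Type} [Primcodable β] (P : (ℕ → Bool) → α × β → Prop) (c : ℕ → Bool)
    (a : α) (b : β) : Prop := P c (a, b) ∧ ∀ b', encode b' < encode b → ¬ P c (a, b')

lemma ar_Lst {α β : Type} [Primcodable α] [Primcodable β] {P : (ℕ → Bool) → α × β → Prop}
    (hP : Ar P) : Ar (fun c (q : α × β) => Lst P c q.1 q.2) := by
  have a1 : Ar (fun (c : ℕ → Bool) (q : (α × β) × β) =>
      encode q.2 < encode q.1.2 → ¬ P c (q.1.1, q.2)) := by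
    refine Ar.imp ?_ (Ar.neg ?_)
    · exact Ar.of_prim (Primrec.nat_lt.comp (Primrec.encode.comp Primrec.snd)
        (Primrec.encode.comp (Primrec.snd.comp Primrec.fst)))
    · exact hP.comp (Primrec.pair (Primrec.fst.comp Primrec.fst) Primrec.snd).to_comp
  exact hP.and a1.all

lemma Lst.unique {α β : Type} [Primcodable β] {P : (ℕ → Bool) → α × β → Prop}
    {c : ℕ → Bool} {a : α} {b b' : β} (h : Lst P c a b) (h' : Lst P c a b') : b = b' := by
  rcases lt_trichotomy (encode b) (encode b') with h1 | h1 | h1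
  · exact absurd h.1 (h'.2 b h1)
  · exact Encodable.encode_injective h1
  · exact absurd h'.1 (h.2 b' h1)

lemma exists_lst {α β : Type} [Primcodable β] {P : (ℕ → Bool) → α × β → Prop}
    {c : ℕ → Bool} {a : α} (h : ∃ b, P c (a, b)) : ∃ b, Lst P c a b := by
  classical
  have h' : ∃ n : ℕ, ∃ b : β, encode b = n ∧ P c (a, b) := by
    obtain ⟨b, hb⟩ := h
    exact ⟨_, b, rfl, hb⟩
  obtain ⟨b, h1, h2⟩ := Nat.find_spec h'
  refine ⟨b, h2, fun b' hb' hP => ?_⟩
  rw [h1] at hb'
  exact Nat.find_min h' hb' ⟨b', rfl, hP⟩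

end AE
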