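import Pool.Agent.H79.AE.Borel

/-!
# The dichotomy for homomorphisms of finite Borel class
-/

set_option autoImplicit false
set_option linter.unusedSectionVars false

namespace AE

open Encodable Set

section

variable {X : Type} [TopologicalSpace X] [PolishSpace X]

/-- a separating sequence of open sets -/
lemma exists_sep (X : Type) [TopologicalSpace X] [PolishSpace X] :
    ∃ U : ℕ → Set X, (∀ j, IsOpen (U j)) ∧
      ∀ a b, a ≠ b → ∃ i j, a ∈ U i ∧ b ∈ U j ∧ Disjoint (U i) (U j) := by
  obtain ⟨B, hBc, -, hB⟩ := TopologicalSpace.exists_countable_basis X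
  have hne : (insert ∅ B : Set (Set X)).Nonempty := ⟨∅, mem_insert _ _⟩
  obtain ⟨U, hU⟩ := (hBc.insert ∅).exists_eq_range hne
  refine ⟨U, ?_, ?_⟩
  · intro j
    have h1 : U j ∈ insert ∅ B := by
      rw [hU]
      exact mem_range_self j
    rcases h1 with h1 | h1
    · rw [h1]
      exact isOpen_empty
    · exact hB.isOpen h1
  · intro a b hab
    obtain ⟨V, W, hV, hW, ha, hb, hd⟩ := t2_separation hab
    obtain ⟨V', hV', haV', hVV⟩ := hB.exists_subset_of_mem_open ha hV
    obtain ⟨W', hW', hbW', hWW⟩ := hB.exists_subset_of_mem_open hb hW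
    have h1 : V' ∈ range U := by
      rw [← hU]
      exact mem_insert_of_mem _ hV'
    have h2 : W' ∈ range U := by
      rw [← hU]
      exact mem_insert_of_mem _ hW'
    obtain ⟨i, rfl⟩ := h1
    obtain ⟨j, rfl⟩ := h2
    exact ⟨i, j, haV', hbW', hd.mono hVV hWW⟩

/-- every function of finite Borel class has a code above any given real -/
lemma exists_cd {f : (ℕ → Bool) → X} (hf : FinClass f) (p : ℕ → Bool) :
    ∃ (U : ℕ → Set X) (N : ℕ) (c : ℕ → Bool), Cd U f N c ∧ LeA p c := by
  classical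
  obtain ⟨n, hn⟩ := hf
  obtain ⟨U, hU, hsep⟩ := exists_sep X
  obtain ⟨w, hw⟩ := exists_code n (fun u => f ⁻¹' U (u.headD 0)) (fun u => hn _ (hU _))
  obtain ⟨d, hd⟩ : ∃ d : ℕ → Bool, ∀ i j : ℕ, d (encode (i, j)) = true ↔
      Disjoint (U i) (U j) := by
    refine ⟨fun e => match (decode e : Option (ℕ × ℕ)) with
      | none => false
      | some q => decide (Disjoint (U q.1) (U q.2)), fun i j => ?_⟩
    simp only [Encodable.encodek, decide_eq_true_eq]
  refine ⟨U, n + 1, jn w (jn d p), ⟨hsep, ?_, ?_⟩, ?_⟩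
  · intro j z
    rw [lft_jn, hw]
    rfl
  · intro i j
    rw [rgt_jn, lft_jn]
    exact hd i j
  · exact (leA_jn_right d p).trans (leA_jn_right w (jn d p))

lemma FinClass.measurable [MeasurableSpace X] [BorelSpace X] {f : (ℕ → Bool) → X}
    (hf : FinClass f) : Measurable f := by
  obtain ⟨n, hn⟩ := hf
  exact measurable_of_isOpen fun U hU => (hn U hU).measurableSet

end

section

variable {X : Type} [TopologicalSpace X] [PolishSpace X] [MeasurableSpace X] [BorelSpace X]
  {E : X → X → Prop}

/-- the relation `F` -/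
def Fr (g : (ℕ → Bool) → X) (c : ℕ → Bool) (a b : X) : Prop :=
  a = b ∨ ∃ y y', g y = a ∧ g y' = b ∧ EqA y y' ∧ LeA c y

lemma fr_equiv {g : (ℕ → Bool) → X} (hg : Function.Injective g) (c : ℕ → Bool) :
    Equivalence (Fr g c) where
  refl := fun _ => Or.inl rfl
  symm := by
    rintro a b (h | ⟨y, y', h1, h2, h3, h4⟩)
    · exact Or.inl h.symm
    · exact Or.inr ⟨y', y, h2, h1, h3.symm, h4.trans h3.1⟩
  trans := by
    rintro a b d (rfl | ⟨y, y', h1, h2, h3, h4⟩) h
    · exact h
    · rcases h with rfl | ⟨z, z', k1, k2, k3, k4⟩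
      · exact Or.inr ⟨y, y', h1, h2, h3, h4⟩
      · have : z = y' := hg (by rw [k1, h2])
        subst this
        exact Or.inr ⟨y, z', h1, k2, h3.trans k3, h4⟩

lemma fr_cber {g : (ℕ → Bool) → X} (hgm : Measurable g) (hg : Function.Injective g)
    (c : ℕ → Bool) : CBER (Fr g c) where
  equiv := fr_equiv hg c
  borel := by
    have h1 : {p : X × X | Fr g c p.1 p.2} = {p : X × X | p.1 = p.2} ∪
        (Prod.map g g) '' ({q : (ℕ → Bool) × (ℕ → Bool) | EqA q.1 q.2} ∩
          {q | LeA c q.1}) := by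
      ext ⟨a, b⟩
      simp only [Fr, mem_ofPred_eq, mem_union, mem_image, mem_inter_iff, Prod.exists,
        Prod.map_apply, Prod.mk.injEq]
      constructor
      · rintro (h | ⟨y, y', h1, h2, h3, h4⟩)
        · exact Or.inl h
        · exact Or.inr ⟨y, y', ⟨h3, h4⟩, h1, h2⟩
      · rintro (h | ⟨y, y', ⟨h3, h4⟩, h1, h2⟩)
        · exact Or.inl h
        · exact Or.inr ⟨y, y', h1, h2, h3, h4⟩
    rw [h1]
    refine MeasurableSet.union ?_ ?_
    · exact (isClosed_diagonal (X := X)).measurableSet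
    · refine MeasurableSet.image_of_measurable_injOn ?_ (hgm.prodMap hgm)
        (hg.prodMap hg).injOn
      exact cber_eqA.borel.inter (measurable_fst (measurableSet_cone c))
  ctbl := by
    intro a
    have h1 : {b | Fr g c a b} ⊆ {a} ∪ ⋃ y ∈ {y | g y = a}, g '' {y' | EqA y y'} := by
      rintro b (h | ⟨y, y', h1, h2, h3, h4⟩)
      · exact Or.inl h.symm
      · right
        simp only [mem_iUnion]
        exact ⟨y, h1, y', h3, h2⟩
    refine ((Set.countable_singleton a).union ?_).mono h1
    have h2 : {y | g y = a}.Countable := by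
      apply Set.Subsingleton.countable
      intro y hy y' hy'
      have hy1 : g y = a := hy
      have hy2 : g y' = a := hy'
      exact hg (hy1.trans hy2.symm)
    exact h2.biUnion fun y _ => (cber_eqA.ctbl y).image g

/-- on a cone and up to `E` a homomorphism of finite Borel class is constant or injective -/
theorem dichotomy_map {X : Type} [TopologicalSpace X] [PolishSpace X] {E : X → X → Prop}
    (hE : Equivalence E) {f : (ℕ → Bool) → X}
    (hf : ∀ x x', EqA x x' → E (f x) (f x')) (hfin : FinOnCone E f) :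
    ∃ (c : ℕ → Bool) (g : (ℕ → Bool) → X), FinClass g ∧ (∀ y, LeA c y → E (g y) (f y)) ∧
      ((∃ a, ∀ y, g y = a) ∨ Function.Injective g) := by
  obtain ⟨p, f', hf', hp⟩ := hfin
  obtain ⟨U, N, c, hc, hpc⟩ := exists_cd hf' p
  obtain ⟨τ, hτ, h1, h2⟩ := hc.main
  refine ⟨c, fun y => f' (τ y), hf'.comp hτ, ?_, h2⟩
  intro y hy
  have e1 := h1 y hy
  exact hE.trans (hp (τ y) ((hpc.trans hy).trans e1.2)) (hf _ _ e1)

theorem fin_or (hE : Equivalence E) : FinContains E ∨ FinErgodic E := by
  by_cases h : FinErgodic E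
  · exact Or.inr h
  · left
    unfold FinErgodic at h
    push Not at h
    obtain ⟨f, hf, hfin, hnc⟩ := h
    obtain ⟨c, g, hg, hgf, h2⟩ := dichotomy_map hE hf hfin
    rcases h2 with ⟨a, ha⟩ | hinj
    · exfalso
      apply hnc
      refine ⟨c, a, fun y hy => ?_⟩
      have e1 := hgf y hy
      rw [ha] at e1
      exact hE.symm e1
    · refine ⟨Fr g c, c, g, fr_cber hg.measurable hinj c, ?_, hg, hinj, ?_⟩
      · rintro a b (rfl | ⟨y, y', rfl, rfl, h3, h4⟩)
        · exact hE.refl a
        · exact hE.trans (hgf y h4) (hE.trans (hf _ _ h3) (hE.symm (hgf y' (h4.trans h3.1))))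
      · intro y y' hy hy'
        constructor
        · intro h
          exact Or.inr ⟨y, y', rfl, rfl, h, hy⟩
        · rintro (h | ⟨z, z', h1, h2, h3, h4⟩)
          · rw [hinj h]
            exact EqA.refl _
          · rw [← hinj h1, ← hinj h2]
            exact h3

theorem fin_not_both (hE : CBER E) (h1 : FinContains E) (h2 : FinErgodic E) : False := by
  obtain ⟨F, c, g, hF, hFE, hg, hinj, hred⟩ := h1
  have hc : ∀ y, LeA c (jn y c) := fun y => leA_jn_right y c
  obtain ⟨p, a, ha⟩ := h2 (fun y => g (jn y c)) (by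
    intro x x' h
    refine hFE _ _ ((hred _ _ (hc x) (hc x')).1 ?_)
    exact ⟨jn_leA (h.1.trans (leA_jn_left x' c)) (leA_jn_right x' c),
      jn_leA (h.2.trans (leA_jn_left x c)) (leA_jn_right x c)⟩)
    ⟨fun _ => false, fun y => g (jn y c), hg.comp (continuous_jn c),
      fun x _ => hE.equiv.refl _⟩
  apply not_countable_cone p
  have h3 : Set.MapsTo (fun y => g (jn y c)) {y | LeA p y} {b | E a b} :=
    fun y hy => hE.equiv.symm (ha y hy)
  have h4 : Function.Injective fun y => g (jn y c) := by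
    intro y y' h
    have h5 := congrArg lft (hinj h)
    simpa [lft_jn] using h5
  exact h3.countable_of_injOn h4.injOn (hE.ctbl a)

theorem weaklyUniversal_of_finContains (hcu : ConesUniversal) (h : FinContains E) :
    WeaklyUniversal E := by
  obtain ⟨F, c, g, hF, hFE, hg, -, h⟩ := h
  refine ⟨F, hF, hFE, ?_⟩
  intro Z _ _ _ _ R hR
  obtain ⟨k, hk, hk1, hk2⟩ := hcu c Z R hR
  refine ⟨g ∘ k, hg.measurable.comp hk, fun z z' => ?_⟩
  rw [hk2, h _ _ (hk1 z) (hk1 z')]
  rfl

end

/-- the result -/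
theorem main {X : Type} [TopologicalSpace X] [PolishSpace X] [MeasurableSpace X] [BorelSpace X]
    {E : X → X → Prop} (hE : CBER E) :
    (FinContains E ∨ FinErgodic E) ∧ ¬ (FinContains E ∧ FinErgodic E) ∧
      (ConesUniversal → FinContains E → WeaklyUniversal E) :=
  ⟨fin_or hE.equiv, fun h => fin_not_both hE h.1 h.2, weaklyUniversal_of_finContains⟩

end AE
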