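import Pool.Agent.H79.AE.Main

/-!
# Regressive homomorphisms are of finite Borel class, up to `E` and on a cone
-/

set_option autoImplicit false

namespace AE

open Encodable Set

/-! ### closure properties of the classes `Sig n` -/

lemma sig_empty (n : ℕ) : Sig n ∅ ∧ Sig n univ := by
  induction n with
  | zero => exact ⟨isOpen_empty, isOpen_univ⟩
  | succ n ih =>
    exact ⟨⟨fun _ => univ, fun _ => ih.2, by simp⟩,
      ⟨fun _ => ∅, fun _ => ih.1, by simp only [compl_empty, iUnion_const]⟩⟩

lemma Sig.compl {n : ℕ} {A : Set (ℕ → Bool)} (h : Sig n A) : Sig (n + 1) Aᶜ :=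
  ⟨fun _ => A, fun _ => h, by rw [iUnion_const]⟩

lemma Sig.up2 {n : ℕ} {A : Set (ℕ → Bool)} (h : Sig n A) : Sig (n + 2) A := by
  have h1 := h.compl.compl
  rwa [compl_compl] at h1

lemma Sig.iUnion2 {n : ℕ} {A : ℕ → Set (ℕ → Bool)} (h : ∀ k, Sig n (A k)) :
    Sig (n + 2) (⋃ k, A k) :=
  ⟨fun k => (A k)ᶜ, fun k => (h k).compl, by simp⟩

/-- an open set is in all classes -/
lemma sig_open (n : ℕ) {A : Set (ℕ → Bool)} (h : IsOpen A) : Sig n A := by
  induction n generalizing A with
  | zero => exact h
  | succ n ih =>
    -- `A` is a countable union of basic clopen sets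
    refine ⟨fun k => ({z : ℕ → Bool | ∃ s : List Bool, decode k = some s ∧ Ini z s ∧
      ∀ z', Ini z' s → z' ∈ A})ᶜ, fun k => ?_, ?_⟩
    · apply ih
      show IsOpen ({z : ℕ → Bool | ∃ s : List Bool, decode k = some s ∧ Ini z s ∧
        ∀ z', Ini z' s → z' ∈ A}ᶜ)
      cases hk : (decode k : Option (List Bool)) with
      | none =>
        have h1 : ({z : ℕ → Bool | ∃ s' : List Bool, none = some s' ∧ Ini z s' ∧
            ∀ z', Ini z' s' → z' ∈ A})ᶜ = univ := by
          rw [compl_univ_iff]
          ext z
          simp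
        rw [h1]
        exact isOpen_univ
      | some s =>
        by_cases hs : ∀ z', Ini z' s → z' ∈ A
        · have h1 : ({z : ℕ → Bool | ∃ s' : List Bool, some s = some s' ∧ Ini z s' ∧
              ∀ z', Ini z' s' → z' ∈ A})ᶜ = {z : ℕ → Bool | Ini z s}ᶜ := by
            congr 1
            ext z
            simp only [mem_ofPred_eq, Option.some.injEq]
            constructor
            · rintro ⟨_, rfl, h, -⟩
              exact h
            · intro h
              exact ⟨s, rfl, h, hs⟩
          rw [h1, isOpen_compl_iff]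
          have h2 : {z : ℕ → Bool | Ini z s} = ⋂ i ∈ Finset.range s.length,
              {x : ℕ → Bool | (s.getD i false = true ↔ x i = true)} := by
            ext x
            simp only [mem_ofPred_eq, ini_iff, mem_iInter, Finset.mem_range]
          rw [h2]
          refine isClosed_biInter fun i _ => ?_
          have h3 : {x : ℕ → Bool | (s.getD i false = true ↔ x i = true)} =
              (fun x : ℕ → Bool => x i) ⁻¹' {b | (s.getD i false = true ↔ b = true)} := rfl
          rw [h3]
          exact (isClosed_discrete _).preimage (continuous_apply i)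
        · have h1 : ({z : ℕ → Bool | ∃ s' : List Bool, some s = some s' ∧ Ini z s' ∧
              ∀ z', Ini z' s' → z' ∈ A})ᶜ = univ := by
            rw [compl_univ_iff]
            ext z
            simp only [mem_ofPred_eq, Option.some.injEq, mem_empty_iff_false, iff_false]
            rintro ⟨_, rfl, -, h⟩
            exact hs h
          rw [h1]
          exact isOpen_univ
    · ext z
      simp only [compl_compl, mem_iUnion, mem_ofPred_eq]
      constructor
      · intro hz
        obtain ⟨k, hk⟩ := exists_ini_subset h hz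
        exact ⟨encode (pre z k), pre z k, Encodable.encodek _, by rw [Ini, length_pre], hk⟩
      · rintro ⟨k, s, -, h1, h2⟩
        exact h2 z h1

lemma Sig.succ {n : ℕ} {A : Set (ℕ → Bool)} (h : Sig n A) : Sig (n + 1) A := by
  induction n generalizing A with
  | zero => exact sig_open 1 h
  | succ n ih =>
    obtain ⟨B, hB, rfl⟩ := h
    exact ⟨B, fun k => ih (hB k), rfl⟩

lemma Sig.mono {n m : ℕ} (hnm : n ≤ m) {A : Set (ℕ → Bool)} (h : Sig n A) : Sig m A := by
  induction m with
  | zero =>
    have : n = 0 := by omega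
    subst this
    exact h
  | succ m ih =>
    rcases Nat.lt_or_ge m n with h1 | h1
    · have : n = m + 1 := by omega
      subst this
      exact h
    · exact (ih h1).succ

lemma Sig.union {n : ℕ} {A B : Set (ℕ → Bool)} (hA : Sig n A) (hB : Sig n B) :
    Sig (n + 2) (A ∪ B) := by
  have h1 : A ∪ B = ⋃ k : ℕ, (if k = 0 then A else B) := by
    ext z
    simp only [mem_union, mem_iUnion]
    constructor
    · rintro (h | h)
      · exact ⟨0, by simpa using h⟩
      · exact ⟨1, by simpa using h⟩
    · rintro ⟨k, hk⟩
      by_cases h0 : k = 0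
      · rw [if_pos h0] at hk
        exact Or.inl hk
      · rw [if_neg h0] at hk
        exact Or.inr hk
  rw [h1]
  refine Sig.iUnion2 fun k => ?_
  by_cases h0 : k = 0
  · rw [if_pos h0]
    exact hA
  · rw [if_neg h0]
    exact hB

lemma Sig.inter {n : ℕ} {A B : Set (ℕ → Bool)} (hA : Sig n A) (hB : Sig n B) :
    Sig (n + 4) (A ∩ B) := by
  have h1 := (hA.compl.union hB.compl).compl
  rwa [compl_union, compl_compl, compl_compl] at h1

/-- the level of a formula -/
lemma exists_sig_sat (φ : Fm) : ∃ k, ∀ n, Sig k {x : ℕ → Bool | φ.Sat x n} := by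
  induction φ with
  | orc =>
    refine ⟨0, fun n => ?_⟩
    have h1 : {x : ℕ → Bool | Fm.orc.Sat x n} = (fun x : ℕ → Bool => x n) ⁻¹' {true} := rfl
    rw [h1]
    exact (isOpen_discrete _).preimage (continuous_apply n)
  | zero => exact ⟨0, fun n => isOpen_const⟩
  | sub c φ ih =>
    obtain ⟨k, hk⟩ := ih
    refine ⟨k, fun n => ?_⟩
    by_cases h : ∃ m, m ∈ c.eval n
    · obtain ⟨m, hm⟩ := h
      have h1 : {x : ℕ → Bool | (Fm.sub c φ).Sat x n} = {x | φ.Sat x m} := by
        ext x
        constructor
        · rintro ⟨m', hm', h'⟩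
          rw [Part.mem_unique hm hm']
          exact h'
        · intro h'
          exact ⟨m, hm, h'⟩
      rw [h1]
      exact hk m
    · have h1 : {x : ℕ → Bool | (Fm.sub c φ).Sat x n} = ∅ := by
        ext x
        simp only [mem_ofPred_eq, mem_empty_iff_false, iff_false]
        rintro ⟨m, hm, -⟩
        exact h ⟨m, hm⟩
      rw [h1]
      exact (sig_empty k).1
  | neg φ ih =>
    obtain ⟨k, hk⟩ := ih
    exact ⟨k + 1, fun n => (hk n).compl⟩
  | conj φ ψ ih ih' =>
    obtain ⟨k, hk⟩ := ih
    obtain ⟨l, hl⟩ := ih'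
    exact ⟨max k l + 4, fun n => ((hk n).mono (le_max_left k l)).inter
      ((hl n).mono (le_max_right k l))⟩
  | ex φ ih =>
    obtain ⟨k, hk⟩ := ih
    refine ⟨k + 2, fun n => ?_⟩
    have h1 : {x : ℕ → Bool | (Fm.ex φ).Sat x n} = ⋃ m : ℕ, {x | φ.Sat x (Nat.pair n m)} := by
      ext x
      simp only [Fm.Sat, mem_ofPred_eq, mem_iUnion]
    rw [h1]
    exact Sig.iUnion2 fun m => hk _

/-- a map into `2^ω` whose coordinates are of bounded class is of finite class -/
lemma finClass_of_coord {f : (ℕ → Bool) → ℕ → Bool} {k : ℕ}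
    (h : ∀ n, Sig k {x | f x n = true}) : FinClass f := by
  have h1 : ∀ n (b : Bool), Sig (k + 1) {x | f x n = b} := by
    intro n b
    cases b with
    | true => exact (h n).succ
    | false =>
      have h2 := (h n).compl
      have h3 : {x | f x n = true}ᶜ = {x | f x n = false} := by
        ext x
        simp
      rwa [h3] at h2
  -- the complement of the preimage of a basic clopen set is a countable union
  have h2 : ∀ s : List Bool, Sig (k + 3) ({x | Ini (f x) s}ᶜ) := by
    intro s
    have h3 : {x | Ini (f x) s}ᶜ = ⋃ i : ℕ, (if i < s.length then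
        {x | f x i = ! s.getD i false} else ∅) := by
      ext x
      simp only [mem_compl_iff, mem_ofPred_eq, ini_iff, mem_iUnion, not_forall]
      constructor
      · rintro ⟨i, hi, h4⟩
        refine ⟨i, ?_⟩
        rw [if_pos hi]
        show f x i = ! s.getD i false
        cases h5 : f x i <;> cases h6 : s.getD i false <;> simp_all
      · rintro ⟨i, hi⟩
        by_cases h4 : i < s.length
        · rw [if_pos h4] at hi
          refine ⟨i, h4, ?_⟩
          have hi' : f x i = ! s.getD i false := hi
          cases h5 : f x i <;> cases h6 : s.getD i false <;> simp_all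
        · rw [if_neg h4] at hi
          exact absurd hi (notMem_empty x)
    rw [h3]
    refine Sig.iUnion2 fun i => ?_
    by_cases h4 : i < s.length
    · rw [if_pos h4]
      exact h1 i _
    · rw [if_neg h4]
      exact (sig_empty _).1
  refine ⟨k + 4, fun U hU => ?_⟩
  -- `f ⁻¹ U` is the union of the preimages of the basic sets contained in `U`
  classical
  refine ⟨fun e => match (decode e : Option (List Bool)) with
    | none => univ
    | some s => if (∀ z, Ini z s → z ∈ U) then {x | Ini (f x) s}ᶜ else univ, ?_, ?_⟩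
  · intro e
    simp only
    cases (decode e : Option (List Bool)) with
    | none => exact (sig_empty _).2
    | some s =>
      simp only
      split_ifs
      · exact h2 s
      · exact (sig_empty _).2
  · ext x
    simp only [mem_preimage, mem_iUnion]
    constructor
    · intro hx
      obtain ⟨m, hm⟩ := exists_ini_subset hU hx
      refine ⟨encode (pre (f x) m), ?_⟩
      rw [Encodable.encodek]
      simp only
      rw [if_pos hm, compl_compl]
      show Ini (f x) (pre (f x) m)
      rw [Ini, length_pre]
    · rintro ⟨e, he⟩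
      cases hs : (decode e : Option (List Bool)) with
      | none => simp [hs] at he
      | some s =>
        simp only [hs] at he
        by_cases h3 : ∀ z, Ini z s → z ∈ U
        · rw [if_pos h3, compl_compl] at he
          exact h3 _ he
        · rw [if_neg h3] at he
          simp at he

lemma FinClass.sig_preimage {X : Type} [TopologicalSpace X] {φ : (ℕ → Bool) → X}
    (hφ : FinClass φ) {g : (ℕ → Bool) → ℕ → Bool} (hg : FinClass g) :
    FinClass (fun x => φ (g x)) := by
  obtain ⟨m, hm⟩ := hφ
  obtain ⟨k, hk⟩ := hg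
  have h1 : ∀ m, ∀ A : Set (ℕ → Bool), Sig m A → Sig (k + m) (g ⁻¹' A) := by
    intro m
    induction m with
    | zero => intro A hA; exact hk A hA
    | succ m ih =>
      rintro A ⟨B, hB, rfl⟩
      refine ⟨fun i => g ⁻¹' (B i), fun i => ih _ (hB i), ?_⟩
      ext x
      simp
  exact ⟨k + m, fun U hU => h1 m _ (hm U hU)⟩

/-- regressive homomorphisms are of finite class, up to `E` and on a cone -/
theorem finOnCone_of_reg (hM : PointedTrees) {X : Type} [TopologicalSpace X] {E : X → X → Prop}
    (hE : Equivalence E) {f : (ℕ → Bool) → X} (hf : ∀ x x', EqA x x' → E (f x) (f x'))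
    (hr : RegOnCone E f) : FinOnCone E f := by
  classical
  obtain ⟨p₀, h, φ, hh, hφ, hp₀⟩ := hr
  have hne : Nonempty Fm := ⟨Fm.orc⟩
  obtain ⟨e, he⟩ := exists_surjective_nat Fm
  obtain ⟨n, p, τ, hτ, h1⟩ := hM (fun n => {x | ∀ m, (h x m = true ↔ (e n).Sat x m)}) (by
    intro n
    have h2 : {x | ∀ m, (h x m = true ↔ (e n).Sat x m)} =
        ⋂ m : ℕ, {x | (h x m = true ↔ (e n).Sat x m)} := by
      ext x
      simp only [mem_ofPred_eq, mem_iInter]
    rw [h2]
    refine MeasurableSet.iInter fun m => ?_
    have a1 : MeasurableSet {x : ℕ → Bool | h x m = true} :=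
      ((measurable_coord m).comp hh) (measurableSet_singleton true)
    have a2 := measurableSet_sat (e n) m
    have h3 : {x | (h x m = true ↔ (e n).Sat x m)} =
        ({x | h x m = true} ∩ {x | (e n).Sat x m}) ∪
          ({x | h x m = true}ᶜ ∩ {x | (e n).Sat x m}ᶜ) := by
      ext x
      simp only [mem_ofPred_eq, mem_union, mem_inter_iff, mem_compl_iff]
      tauto
    rw [h3]
    exact (a1.inter a2).union (a1.compl.inter a2.compl)) ⟨p₀, fun x hx => by
      obtain ⟨ψ, hψ⟩ := (hp₀ x hx).1
      obtain ⟨n, rfl⟩ := he ψ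
      exact ⟨n, hψ⟩⟩
  obtain ⟨k, hk⟩ := exists_sig_sat (e n)
  have hg : FinClass (fun y m => decide ((e n).Sat (τ y) m)) := by
    refine finClass_of_coord (k := k) fun m => ?_
    have h2 : {y | decide ((e n).Sat (τ y) m) = true} = τ ⁻¹' {x | (e n).Sat x m} := by
      ext y
      simp
    rw [h2]
    exact (hk m).preimage hτ
  refine ⟨jn p p₀, fun y => φ (fun m => decide ((e n).Sat (τ y) m)), hφ.sig_preimage hg, ?_⟩
  intro y hy
  obtain ⟨h2, h3⟩ := h1 y ((leA_jn_left p p₀).trans hy)
  have h4 : (fun m => decide ((e n).Sat (τ y) m)) = h (τ y) := by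
    funext m
    rw [Bool.eq_iff_iff, decide_eq_true_iff]
    exact (h3 m).symm
  show E (φ (fun m => decide ((e n).Sat (τ y) m))) (f y)
  rw [h4]
  have h5 : LeA p₀ (τ y) := ((leA_jn_right p p₀).trans hy).trans h2.2
  exact hE.trans (hp₀ _ h5).2 (hf _ _ h2)

/-- the result -/
theorem main_reg {X : Type} [TopologicalSpace X] [PolishSpace X] [MeasurableSpace X]
    [BorelSpace X] {E : X → X → Prop} (hE : CBER E) :
    (FinContains E ∨ FinErgodic E) ∧ ¬ (FinContains E ∧ FinErgodic E) ∧
      (ConesUniversal → FinContains E → WeaklyUniversal E) ∧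
      (PointedTrees → FinErgodic E → ∀ f : (ℕ → Bool) → X,
        (∀ x x', EqA x x' → E (f x) (f x')) → RegOnCone E f → ConstOnCone E f) := by
  obtain ⟨h1, h2, h3⟩ := main hE
  exact ⟨h1, h2, h3, fun hM h f hf hr => h f hf (finOnCone_of_reg hM hE.equiv hf hr)⟩

end AE
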