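import Pool.Agent.H79.AE.Branch

/-!
# Borel classes of finite rank and their codes
-/

set_option autoImplicit false

namespace AE

open Encodable Set

lemma Sig.measurableSet {n : ℕ} {A : Set (ℕ → Bool)} (h : Sig n A) : MeasurableSet A := by
  induction n generalizing A with
  | zero =>
    have h' : IsOpen A := h
    exact h'.measurableSet
  | succ n ih =>
    obtain ⟨B, hB, rfl⟩ := h
    exact MeasurableSet.iUnion fun k => (ih (hB k)).compl

lemma Sig.preimage {n : ℕ} {A : Set (ℕ → Bool)} (h : Sig n A)
    {τ : (ℕ → Bool) → (ℕ → Bool)} (hτ : Continuous τ) : Sig n (τ ⁻¹' A) := by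
  induction n generalizing A with
  | zero =>
    have h' : IsOpen A := h
    exact h'.preimage hτ
  | succ n ih =>
    obtain ⟨B, hB, rfl⟩ := h
    exact ⟨fun k => τ ⁻¹' B k, fun k => ih (hB k), by rw [preimage_iUnion]; rfl⟩

lemma FinClass.comp {X : Type} [TopologicalSpace X] {f : (ℕ → Bool) → X} (hf : FinClass f)
    {τ : (ℕ → Bool) → (ℕ → Bool)} (hτ : Continuous τ) : FinClass fun y => f (τ y) := by
  obtain ⟨n, hn⟩ := hf
  exact ⟨n, fun U hU => (hn U hU).preimage hτ⟩

/-- the basic open set of the reals starting with `s` -/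
lemma isOpen_ini (s : List Bool) : IsOpen {x : ℕ → Bool | Ini x s} := by
  have h1 : {x : ℕ → Bool | Ini x s} = ⋂ i ∈ Finset.range s.length,
      {x : ℕ → Bool | (s.getD i false = true ↔ x i = true)} := by
    ext x
    simp only [mem_ofPred_eq, ini_iff, mem_iInter, Finset.mem_range]
  rw [h1]
  refine isOpen_biInter_finset fun i _ => ?_
  have h2 : {x : ℕ → Bool | (s.getD i false = true ↔ x i = true)} =
      (fun x : ℕ → Bool => x i) ⁻¹' {b | (s.getD i false = true ↔ b = true)} := rfl
  rw [h2]
  exact (isOpen_discrete _).preimage (continuous_apply i)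

lemma exists_ini_subset {A : Set (ℕ → Bool)} (hA : IsOpen A) {x : ℕ → Bool} (hx : x ∈ A) :
    ∃ k, ∀ z, Ini z (pre x k) → z ∈ A := by
  rw [isOpen_pi_iff] at hA
  obtain ⟨I, u, h1, h2⟩ := hA x hx
  refine ⟨I.sup id + 1, fun z hz => h2 ?_⟩
  intro i hi
  rw [ini_iff] at hz
  have h3 : i < I.sup id + 1 := Nat.lt_succ_of_le (Finset.le_sup (f := id) hi)
  have h4 := hz i (by rwa [length_pre])
  rw [getD_pre x h3] at h4
  have h5 : z i = x i := Bool.eq_iff_iff.2 h4.symm
  rw [h5]
  exact (h1 i hi).2

/-- every family of sets in `Sig n` has a code -/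
lemma exists_code (n : ℕ) (A : List ℕ → Set (ℕ → Bool)) (hA : ∀ u, Sig n (A u)) :
    ∃ w : ℕ → Bool, ∀ u z, Bs w (n + 1) u z ↔ z ∈ A u := by
  classical
  induction n generalizing A with
  | zero =>
    -- `w (encode (k :: u, τ))` is false iff the neighbourhood of `τ` is contained in `A u`
    refine ⟨fun e => match (decode e : Option (List ℕ × List Bool)) with
      | none => true
      | some q => ! decide (∀ z, Ini z q.2 → z ∈ A q.1.tail), ?_⟩
    intro u z
    simp only [Bs, Encodable.encodek, List.headD_cons, List.tail_cons, Bool.not_eq_true',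
      decide_eq_false_iff_not, not_not]
    constructor
    · rintro ⟨k, hk⟩
      exact hk z (by rw [Ini, length_pre])
    · intro hz
      exact exists_ini_subset (hA u) hz
  | succ n ih =>
    choose B hB hAB using hA
    obtain ⟨w, hw⟩ := ih (fun v => B v.tail (v.headD 0)) (fun v => hB _ _)
    refine ⟨w, fun u z => ?_⟩
    rw [hAB u]
    show (∃ k, ¬ Bs w (n + 1) (k :: u) z) ↔ _
    simp only [hw, List.tail_cons, List.headD_cons, mem_iUnion, mem_compl_iff]

end AE
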