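import Pool.Agent.H79.AE.Force

set_option autoImplicit false

namespace AE

open Encodable

/-- triples `(s, (t₀, t₁))` -/
abbrev Tri : Type := List Bool × (List Bool × List Bool)

/-- the properties of a splitting relation which are used -/
structure Splits (Sp : (ℕ → Bool) → Tri → Prop) (c : ℕ → Bool) : Prop where
  ar : Ar Sp
  le0 : ∀ s t₀ t₁, Sp c (s, t₀, t₁) → s <+: t₀
  le1 : ∀ s t₀ t₁, Sp c (s, t₀, t₁) → s <+: t₁
  len : ∀ s t₀ t₁, Sp c (s, t₀, t₁) → t₀.length = t₁.length
  ne : ∀ s t₀ t₁, Sp c (s, t₀, t₁) → t₀ ≠ t₁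
  ex : ∀ s, ∃ t₀ t₁, Sp c (s, t₀, t₁)

/-- the `i`-th index -/
def ul (i : ℕ) : List ℕ := ((decode i : Option (List ℕ))).getD []

lemma ul_encode (u : List ℕ) : ul (encode u) = u := by simp [ul]

lemma primrec_ul : Primrec ul :=
  Primrec.option_getD.comp Primrec.decode (Primrec.const [])

/-- `(r₀, r₁)` is an admissible pair of successors of `s` at stage `i` -/
def Pr (Sp : (ℕ → Bool) → Tri → Prop) (n : ℕ) (c : ℕ → Bool)
    (q : (List Bool × ℕ) × (List Bool × List Bool)) : Prop :=
  ∃ t : List Bool × List Bool, Sp c (q.1.1, t) ∧ t.1 <+: q.2.1 ∧ t.2 <+: q.2.2 ∧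
    DecAll c n q.2.1 (ul q.1.2) ∧ DecAll c n q.2.2 (ul q.1.2)

lemma ar_Pr {Sp : (ℕ → Bool) → Tri → Prop} (h : Ar Sp) (n : ℕ) : Ar (Pr Sp n) := by
  have b1 : Ar (fun (c : ℕ → Bool) (q : ((List Bool × ℕ) × (List Bool × List Bool)) ×
      (List Bool × List Bool)) => Sp c (q.1.1.1, q.2)) :=
    h.comp (Primrec.pair (Primrec.fst.comp (Primrec.fst.comp Primrec.fst)) Primrec.snd).to_comp
  have b2 : Ar (fun (_ : ℕ → Bool) (q : ((List Bool × ℕ) × (List Bool × List Bool)) ×
      (List Bool × List Bool)) => q.2.1 <+: q.1.2.1) :=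
    Ar.of_prim (primrec_prefix (Primrec.fst.comp Primrec.snd)
      (Primrec.fst.comp (Primrec.snd.comp Primrec.fst)))
  have b3 : Ar (fun (_ : ℕ → Bool) (q : ((List Bool × ℕ) × (List Bool × List Bool)) ×
      (List Bool × List Bool)) => q.2.2 <+: q.1.2.2) :=
    Ar.of_prim (primrec_prefix (Primrec.snd.comp Primrec.snd)
      (Primrec.snd.comp (Primrec.snd.comp Primrec.fst)))
  have b4 : Ar (fun (c : ℕ → Bool) (q : ((List Bool × ℕ) × (List Bool × List Bool)) ×
      (List Bool × List Bool)) => DecAll c n q.1.2.1 (ul q.1.1.2)) :=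
    (ar_DecAll n).comp (Primrec.pair (Primrec.fst.comp (Primrec.snd.comp Primrec.fst))
      (primrec_ul.comp (Primrec.snd.comp (Primrec.fst.comp Primrec.fst)))).to_comp
  have b5 : Ar (fun (c : ℕ → Bool) (q : ((List Bool × ℕ) × (List Bool × List Bool)) ×
      (List Bool × List Bool)) => DecAll c n q.1.2.2 (ul q.1.1.2)) :=
    (ar_DecAll n).comp (Primrec.pair (Primrec.snd.comp (Primrec.snd.comp Primrec.fst))
      (primrec_ul.comp (Primrec.snd.comp (Primrec.fst.comp Primrec.fst)))).to_comp
  exact (b1.and (b2.and (b3.and (b4.and b5)))).ex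

lemma Splits.exists_Pr {Sp : (ℕ → Bool) → Tri → Prop} {c : ℕ → Bool} (h : Splits Sp c) (n : ℕ)
    (a : List Bool × ℕ) : ∃ r, Pr Sp n c (a, r) := by
  obtain ⟨t₀, t₁, ht⟩ := h.ex a.1
  obtain ⟨r₀, h0, h0'⟩ := exists_decAll c n t₀ (ul a.2)
  obtain ⟨r₁, h1, h1'⟩ := exists_decAll c n t₁ (ul a.2)
  exact ⟨(r₀, r₁), (t₀, t₁), ht, h0, h1, h0', h1'⟩

/-- the chosen pair of successors -/
noncomputable def step (Sp : (ℕ → Bool) → Tri → Prop) (n : ℕ) (c : ℕ → Bool)
    (a : List Bool × ℕ) : List Bool × List Bool :=
  open Classical in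
  if h : ∃ r, Lst (Pr Sp n) c a r then h.choose else ([], [])

lemma Splits.step_spec {Sp : (ℕ → Bool) → Tri → Prop} {c : ℕ → Bool} (h : Splits Sp c) (n : ℕ)
    (a : List Bool × ℕ) : Lst (Pr Sp n) c a (step Sp n c a) := by
  have h1 : ∃ r, Lst (Pr Sp n) c a r := exists_lst (h.exists_Pr n a)
  unfold step
  rw [dif_pos h1]
  exact h1.choose_spec

lemma Splits.step_eq {Sp : (ℕ → Bool) → Tri → Prop} {c : ℕ → Bool} (h : Splits Sp c) {n : ℕ}
    {a : List Bool × ℕ} {r : List Bool × List Bool} (hr : Lst (Pr Sp n) c a r) :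
    r = step Sp n c a := hr.unique (h.step_spec n a)

/-- the tree (the first element of the index is the last bit) -/
noncomputable def Tr (Sp : (ℕ → Bool) → Tri → Prop) (n : ℕ) (c : ℕ → Bool) (root : List Bool) :
    List Bool → List Bool
  | [] => root
  | b :: σ => if b then (step Sp n c (Tr Sp n c root σ, σ.length)).2
      else (step Sp n c (Tr Sp n c root σ, σ.length)).1

section

variable {Sp : (ℕ → Bool) → Tri → Prop} {c : ℕ → Bool} (h : Splits Sp c) (n : ℕ)
  (root : List Bool)

include h

/-- what we know about the successors -/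
lemma Splits.succ (σ : List Bool) : ∃ t₀ t₁, Sp c (Tr Sp n c root σ, t₀, t₁) ∧
    t₀ <+: Tr Sp n c root (false :: σ) ∧ t₁ <+: Tr Sp n c root (true :: σ) ∧
    DecAll c n (Tr Sp n c root (false :: σ)) (ul σ.length) ∧
    DecAll c n (Tr Sp n c root (true :: σ)) (ul σ.length) := by
  obtain ⟨⟨t, h1, h2, h3, h4, h5⟩, -⟩ := h.step_spec n (Tr Sp n c root σ, σ.length)
  exact ⟨t.1, t.2, h1, h2, h3, h4, h5⟩

lemma Splits.prefix_succ (b : Bool) (σ : List Bool) :
    Tr Sp n c root σ <+: Tr Sp n c root (b :: σ) ∧
      (Tr Sp n c root σ).length < (Tr Sp n c root (b :: σ)).length := by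
  obtain ⟨t₀, t₁, h1, h2, h3, -, -⟩ := h.succ n root σ
  have h4 := h.le0 _ _ _ h1
  have h5 := h.le1 _ _ _ h1
  have h6 := h.len _ _ _ h1
  have h7 := h.ne _ _ _ h1
  have h8 : (Tr Sp n c root σ).length < t₀.length := by
    rcases Nat.lt_or_ge (Tr Sp n c root σ).length t₀.length with h9 | h9
    · exact h9
    · exfalso
      apply h7
      have e1 : Tr Sp n c root σ = t₀ := h4.eq_of_length_le h9
      have e2 : Tr Sp n c root σ = t₁ := h5.eq_of_length_le (by omega)
      rw [← e1, ← e2]
  cases b with
  | false => exact ⟨h4.trans h2, lt_of_lt_of_le h8 h2.length_le⟩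
  | true => exact ⟨h5.trans h3, lt_of_lt_of_le (by omega) h3.length_le⟩

/-- successors of the same node are incompatible -/
lemma Splits.incomp {b b' : Bool} {σ r : List Bool} (h1 : Tr Sp n c root (b :: σ) <+: r)
    (h2 : Tr Sp n c root (b' :: σ) <+: r) : b = b' := by
  obtain ⟨t₀, t₁, h3, h4, h5, -, -⟩ := h.succ n root σ
  have key : ∀ {r : List Bool}, t₀ <+: r → t₁ <+: r → False := by
    intro r h6 h7
    apply h.ne _ _ _ h3
    have e1 := List.prefix_iff_eq_take.1 h6
    have e2 := List.prefix_iff_eq_take.1 h7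
    rw [e1, e2, h.len _ _ _ h3]
  cases b <;> cases b'
  · rfl
  · exact (key (h4.trans h1) (h5.trans h2)).elim
  · exact (key (h4.trans h2) (h5.trans h1)).elim
  · rfl

end

/-! ### branches -/

/-- the first `k` bits of `y`, the last one first -/
def yl (y : ℕ → Bool) : ℕ → List Bool
  | 0 => []
  | k + 1 => y k :: yl y k

@[simp] lemma length_yl (y : ℕ → Bool) (k : ℕ) : (yl y k).length = k := by
  induction k with
  | zero => rfl
  | succ k ih => simp [yl, ih]

lemma yl_iff {y : ℕ → Bool} {σ : List Bool} {k : ℕ} : σ = yl y k ↔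
    σ.length = k ∧ ∀ i, i < k → (σ.getD (k - 1 - i) false = true ↔ y i = true) := by
  induction k generalizing σ with
  | zero =>
    constructor
    · rintro rfl
      exact ⟨rfl, fun i hi => absurd hi (Nat.not_lt_zero i)⟩
    · rintro ⟨h, -⟩
      exact List.length_eq_zero_iff.1 h
  | succ k ih =>
    constructor
    · rintro rfl
      refine ⟨length_yl y _, fun i hi => ?_⟩
      rcases Nat.lt_or_ge i k with h1 | h1
      · have h2 := (ih.1 (rfl : yl y k = yl y k)).2 i h1
        have h3 : k + 1 - 1 - i = (k - 1 - i) + 1 := by omega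
        rw [h3, yl, List.getD_cons_succ]
        exact h2
      · have h2 : i = k := by omega
        subst h2
        simp [yl]
    · rintro ⟨h1, h2⟩
      cases σ with
      | nil => simp at h1
      | cons b σ =>
        have h3 : σ.length = k := by simpa using h1
        have h4 : b = y k := by
          have := h2 k (by omega)
          rw [show k + 1 - 1 - k = 0 by omega, List.getD_cons_zero] at this
          exact Bool.eq_iff_iff.2 this
        have h5 : σ = yl y k := by
          rw [ih]
          refine ⟨h3, fun i hi => ?_⟩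
          have h6 := h2 i (by omega)
          have h7 : k + 1 - 1 - i = (k - 1 - i) + 1 := by omega
          rw [h7, List.getD_cons_succ] at h6
          exact h6
        rw [h4, h5, yl]

/-- the branch of the tree given by `y` -/
noncomputable def TR (Sp : (ℕ → Bool) → Tri → Prop) (n : ℕ) (c : ℕ → Bool) (root : List Bool)
    (y : ℕ → Bool) (m : ℕ) : Bool := (Tr Sp n c root (yl y (m + 1))).getD m false

section

variable {Sp : (ℕ → Bool) → Tri → Prop} {c : ℕ → Bool} (h : Splits Sp c) (n : ℕ)
  (root : List Bool)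

include h

lemma Splits.prefix_yl (y : ℕ → Bool) {k l : ℕ} (hkl : k ≤ l) :
    Tr Sp n c root (yl y k) <+: Tr Sp n c root (yl y l) := by
  induction l with
  | zero =>
    have : k = 0 := by omega
    subst this
    exact List.prefix_rfl
  | succ l ih =>
    rcases Nat.lt_or_ge l k with h1 | h1
    · have : k = l + 1 := by omega
      subst this
      exact List.prefix_rfl
    · exact (ih h1).trans (h.prefix_succ n root _ _).1

lemma Splits.le_length (σ : List Bool) : σ.length ≤ (Tr Sp n c root σ).length := by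
  induction σ with
  | nil => simp
  | cons b σ ih =>
    have := (h.prefix_succ n root b σ).2
    simp only [List.length_cons]
    omega

lemma Splits.getD_TR (y : ℕ → Bool) {k m : ℕ} (hm : m < (Tr Sp n c root (yl y k)).length) :
    (Tr Sp n c root (yl y k)).getD m false = TR Sp n c root y m := by
  unfold TR
  have h1 : m < (Tr Sp n c root (yl y (m + 1))).length := by
    have := h.le_length n root (yl y (m + 1))
    rw [length_yl] at this
    omega
  rcases le_total k (m + 1) with h2 | h2
  · exact (getD_of_prefix (h.prefix_yl n root y h2) hm).symm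
  · exact getD_of_prefix (h.prefix_yl n root y h2) h1

lemma Splits.pre_TR (y : ℕ → Bool) (k : ℕ) :
    pre (TR Sp n c root y) (Tr Sp n c root (yl y k)).length = Tr Sp n c root (yl y k) := by
  apply List.ext_getElem
  · simp
  · intro i h1 h2
    have h3 := h.getD_TR n root y h2
    rw [List.getD_eq_getElem _ _ h2] at h3
    rw [h3]
    simp [pre]

/-- branches decide everything -/
lemma Splits.Dc_TR (y : ℕ → Bool) : Dc c n (TR Sp n c root y) := by
  intro m hm u
  obtain ⟨t₀, t₁, -, -, -, h4, h5⟩ := h.succ n root (yl y (encode u))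
  rw [length_yl, ul_encode] at h4 h5
  refine ⟨(Tr Sp n c root (yl y (encode u + 1))).length, ?_⟩
  rw [h.pre_TR]
  cases hb : y (encode u) with
  | false =>
    rw [yl, hb]
    exact h4.dec hm
  | true =>
    rw [yl, hb]
    exact h5.dec hm

/-- the nodes on a branch determine the index -/
lemma Splits.index_unique {σ τ : List Bool} {x : ℕ → Bool} (hl : σ.length = τ.length)
    (h1 : pre x (Tr Sp n c root σ).length = Tr Sp n c root σ)
    (h2 : pre x (Tr Sp n c root τ).length = Tr Sp n c root τ) : σ = τ := by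
  induction σ generalizing τ with
  | nil =>
    cases τ with
    | nil => rfl
    | cons b τ => simp at hl
  | cons b σ ih =>
    cases τ with
    | nil => simp at hl
    | cons b' τ =>
      have hpre : ∀ {b : Bool} {σ : List Bool},
          pre x (Tr Sp n c root (b :: σ)).length = Tr Sp n c root (b :: σ) →
          pre x (Tr Sp n c root σ).length = Tr Sp n c root σ := by
        intro b σ hx
        have h3 := (h.prefix_succ n root b σ).1
        rw [← hx] at h3
        have h4 : pre x (Tr Sp n c root σ).length <+: pre x (Tr Sp n c root (b :: σ)).length :=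
          pre_prefix x (h.prefix_succ n root b σ).2.le
        exact List.prefix_of_prefix_length_le h4 h3 (by simp) |>.eq_of_length_le (by simp)
      have h3 : σ = τ := ih (by simpa using hl) (hpre h1) (hpre h2)
      subst h3
      have h4 : b = b' := by
        refine h.incomp n root (σ := σ) (r := pre x (max (Tr Sp n c root (b :: σ)).length
          (Tr Sp n c root (b' :: σ)).length)) ?_ ?_
        · rw [← h1]
          exact pre_prefix x (by rw [h1]; exact le_max_left _ _)
        · rw [← h2]
          exact pre_prefix x (by rw [h2]; exact le_max_right _ _)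
      rw [h4]

end

/-! ### arithmeticity of the tree -/

/-- the graph of the tree -/
def TG (Sp : (ℕ → Bool) → Tri → Prop) (n : ℕ) (root : List Bool) (c : ℕ → Bool)
    (q : List Bool × List Bool) : Prop :=
  ∃ H : List (List Bool), H.getD q.1.length [] = root ∧ H.getD 0 [] = q.2 ∧
    ∀ i, i < q.1.length → ∃ r : List Bool × List Bool,
      Lst (Pr Sp n) c (H.getD (i + 1) [], q.1.length - (i + 1)) r ∧
      ((q.1.getD i false = true ∧ H.getD i [] = r.2) ∨
        (¬ q.1.getD i false = true ∧ H.getD i [] = r.1))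

lemma ar_TG {Sp : (ℕ → Bool) → Tri → Prop} (h : Ar Sp) (n : ℕ) (root : List Bool) :
    Ar (TG Sp n root) := by
  -- q = ((σ, s), H), then i, then r
  have c1 : Ar (fun (_ : ℕ → Bool) (q : (List Bool × List Bool) × List (List Bool)) =>
      q.2.getD q.1.1.length [] = root) :=
    Ar.of_prim (Primrec.eq.comp ((Primrec.list_getD []).comp Primrec.snd
      (Primrec.list_length.comp (Primrec.fst.comp Primrec.fst))) (Primrec.const root))
  have c2 : Ar (fun (_ : ℕ → Bool) (q : (List Bool × List Bool) × List (List Bool)) =>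
      q.2.getD 0 [] = q.1.2) :=
    Ar.of_prim (Primrec.eq.comp ((Primrec.list_getD []).comp Primrec.snd
      (Primrec.const 0)) (Primrec.snd.comp Primrec.fst))
  have c3 : Ar (fun (_ : ℕ → Bool)
      (q : ((List Bool × List Bool) × List (List Bool)) × ℕ) => q.2 < q.1.1.1.length) :=
    Ar.of_prim (Primrec.nat_lt.comp Primrec.snd (Primrec.list_length.comp
      (Primrec.fst.comp (Primrec.fst.comp Primrec.fst))))
  have p1 : Primrec (fun q : (((List Bool × List Bool) × List (List Bool)) × ℕ) ×
      (List Bool × List Bool) => q.1.1.1.1) :=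
    Primrec.fst.comp (Primrec.fst.comp (Primrec.fst.comp Primrec.fst))
  have pH : Primrec (fun q : (((List Bool × List Bool) × List (List Bool)) × ℕ) ×
      (List Bool × List Bool) => q.1.1.2) :=
    Primrec.snd.comp (Primrec.fst.comp Primrec.fst)
  have pi : Primrec (fun q : (((List Bool × List Bool) × List (List Bool)) × ℕ) ×
      (List Bool × List Bool) => q.1.2) := Primrec.snd.comp Primrec.fst
  have c4 : Ar (fun (c : ℕ → Bool) (q : (((List Bool × List Bool) × List (List Bool)) × ℕ) ×
      (List Bool × List Bool)) =>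
      Lst (Pr Sp n) c (q.1.1.2.getD (q.1.2 + 1) [], q.1.1.1.1.length - (q.1.2 + 1)) q.2) :=
    (ar_Lst (ar_Pr h n)).comp (Primrec.pair (Primrec.pair
      ((Primrec.list_getD []).comp pH (Primrec.succ.comp pi))
      (Primrec.nat_sub.comp (Primrec.list_length.comp p1) (Primrec.succ.comp pi)))
      Primrec.snd).to_comp
  have c5 : Ar (fun (_ : ℕ → Bool) (q : (((List Bool × List Bool) × List (List Bool)) × ℕ) ×
      (List Bool × List Bool)) => q.1.1.1.1.getD q.1.2 false = true) :=
    Ar.of_prim (Primrec.eq.comp ((Primrec.list_getD false).comp p1 pi) (Primrec.const true))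
  have c6 : Ar (fun (_ : ℕ → Bool) (q : (((List Bool × List Bool) × List (List Bool)) × ℕ) ×
      (List Bool × List Bool)) => q.1.1.2.getD q.1.2 [] = q.2.2) :=
    Ar.of_prim (Primrec.eq.comp ((Primrec.list_getD []).comp pH pi)
      (Primrec.snd.comp Primrec.snd))
  have c7 : Ar (fun (_ : ℕ → Bool) (q : (((List Bool × List Bool) × List (List Bool)) × ℕ) ×
      (List Bool × List Bool)) => q.1.1.2.getD q.1.2 [] = q.2.1) :=
    Ar.of_prim (Primrec.eq.comp ((Primrec.list_getD []).comp pH pi)
      (Primrec.fst.comp Primrec.snd))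
  exact (c1.and (c2.and (c3.imp (c4.and ((c5.and c6).or (c5.neg.and c7))).ex).all)).ex

lemma Splits.TG_iff {Sp : (ℕ → Bool) → Tri → Prop} {c : ℕ → Bool} (h : Splits Sp c) (n : ℕ)
    (root : List Bool) (σ s : List Bool) : TG Sp n root c (σ, s) ↔ s = Tr Sp n c root σ := by
  have hd : ∀ i, i < σ.length → σ.drop i = σ.getD i false :: σ.drop (i + 1) := by
    intro i hi
    rw [List.getD_eq_getElem _ _ hi, List.drop_eq_getElem_cons hi]
  constructor
  · rintro ⟨H, h1, h2, h3⟩
    have key : ∀ j, j ≤ σ.length →
        H.getD (σ.length - j) [] = Tr Sp n c root (σ.drop (σ.length - j)) := by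
      intro j
      induction j with
      | zero =>
        intro _
        simpa [Tr] using h1
      | succ j ih =>
        intro hj
        have h4 := ih (by omega)
        have h5 : σ.length - (j + 1) + 1 = σ.length - j := by omega
        obtain ⟨r, h6, h7⟩ := h3 (σ.length - (j + 1)) (by simp only; omega)
        simp only at h6 h7
        rw [h5, h4] at h6
        have h8 := h.step_eq h6
        rw [hd _ (by omega : σ.length - (j + 1) < σ.length), h5, Tr, List.length_drop, ← h8]
        rcases h7 with ⟨h9, h10⟩ | ⟨h9, h10⟩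
        · rw [h9, h10]; rfl
        · rw [Bool.not_eq_true] at h9
          rw [h9, h10]; rfl
    have h4 := key σ.length le_rfl
    simp only [Nat.sub_self, List.drop_zero] at h4
    rw [← h4]
    exact h2.symm
  · rintro rfl
    have hH : ∀ i, i ≤ σ.length → ((List.range (σ.length + 1)).map
        fun i => Tr Sp n c root (σ.drop i)).getD i [] = Tr Sp n c root (σ.drop i) := by
      intro i hi
      rw [List.getD_eq_getElem _ _ (by simp; omega)]
      simp
    refine ⟨(List.range (σ.length + 1)).map fun i => Tr Sp n c root (σ.drop i), ?_, ?_, ?_⟩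
    · rw [hH _ le_rfl]
      simp [Tr]
    · rw [hH _ (Nat.zero_le _)]
      simp
    · intro i hi
      simp only at hi
      simp only
      rw [hH _ (by omega : i + 1 ≤ σ.length), hH _ (by omega : i ≤ σ.length)]
      refine ⟨_, h.step_spec n _, ?_⟩
      rw [hd i hi, Tr, List.length_drop]
      cases σ.getD i false <;> simp

end AE
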